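import Pool.Agent.T9h75.WH.Cols

set_option autoImplicit false
set_option linter.unusedSectionVars false

namespace Pool.Agent.T9h75.WH

open Finset Pool.Agent.T9h16
open scoped Classical

/-- The variables of a block: `k` groups of `w` rows, and `m` columns. -/
abbrev BV (k w m : ℕ) : Type := Fin k × Fin w × Fin m

/-- The block function: one row of every group can be chosen so that the chosen rows cover all the
columns. -/
def HS {k w m : ℕ} (z : Set (BV k w m)) : Prop :=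
  ∃ φ : Fin k → Fin w, ∀ j, ∃ x, (x, φ x, j) ∈ z

theorem HS.mono {k w m : ℕ} {z z' : Set (BV k w m)} (h : z ⊆ z') (hz : HS z) : HS z' := by
  obtain ⟨φ, hφ⟩ := hz
  exact ⟨φ, fun j => (hφ j).imp fun x hx => h hx⟩

theorem not_HS_empty {k w m : ℕ} (hm : 1 ≤ m) : ¬ HS (∅ : Set (BV k w m)) := by
  rintro ⟨φ, h⟩
  obtain ⟨x, hx⟩ := h ⟨0, hm⟩
  exact hx

/-- The positive tests: the rows `φ x`, and the column `j` is covered by the row of the group
`θ j` only. -/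
abbrev PT (k w m : ℕ) : Type := (Fin k → Fin w) × (Fin m → Fin k)

/-- The input given by a positive test. -/
def pos {k w m : ℕ} (t : PT k w m) : Set (BV k w m) := {e | t.1 e.1 = e.2.1 ∧ t.2 e.2.2 = e.1}

theorem HS_pos {k w m : ℕ} (t : PT k w m) : HS (pos t) :=
  ⟨t.1, fun j => ⟨t.2 j, rfl, rfl⟩⟩

section
variable {k w m : ℕ}

/-- The bad positive tests of a family of sets of variables. -/
noncomputable def badP (𝒞 : Set (Finset (BV k w m))) (ℓ : ℕ) : Finset (PT k w m) :=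
  univ.filter fun t => (∀ F ∈ 𝒞, ∃ e ∈ F, e ∈ pos t) ∧
    ∀ Y : Finset (BV k w m), Y.card ≤ ℓ → (∀ e ∈ Y, e ∈ pos t) → ∃ F ∈ 𝒞, ∀ e ∈ F, e ∉ Y

theorem mem_badP {𝒞 : Set (Finset (BV k w m))} {ℓ : ℕ} {t : PT k w m} :
    t ∈ badP 𝒞 ℓ ↔ (∀ F ∈ 𝒞, ∃ e ∈ F, e ∈ pos t) ∧
      ∀ Y : Finset (BV k w m), Y.card ≤ ℓ → (∀ e ∈ Y, e ∈ pos t) → ∃ F ∈ 𝒞, ∀ e ∈ F, e ∉ Y := by
  rw [badP, mem_filter]
  exact ⟨fun h => h.2, fun h => ⟨mem_univ _, h⟩⟩

/-- The exceptional row choices for a fixed assignment of the columns. -/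
noncomputable def exR (𝒞 : Set (Finset (BV k w m))) (θ : Fin m → Fin k) : Finset (Fin k → Fin w) :=
  univ.filter fun φ => (∀ r ∈ {r : Finset (Finset (Fin k × Fin w)) | ∃ F ∈ 𝒞,
      r = (F.filter fun e => θ e.2.2 = e.1).image fun e => {(e.1, e.2.1)}},
        ∃ O ∈ r, ∀ v ∈ O, φ v.1 = v.2) ∧
    ∀ Y : Finset (Fin k × Fin w), Y.card ≤ k - 1 → (∀ v ∈ Y, φ v.1 = v.2) →
      ∃ r ∈ {r : Finset (Finset (Fin k × Fin w)) | ∃ F ∈ 𝒞,
        r = (F.filter fun e => θ e.2.2 = e.1).image fun e => {(e.1, e.2.1)}},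
        ∀ O ∈ r, ¬ O ⊆ Y

theorem card_exR (hk : 1 ≤ k) (hw : 1 ≤ w) {c : ℕ} (hc1 : 1 ≤ c) (𝒞 : Set (Finset (BV k w m)))
    (hc : ∀ F ∈ 𝒞, F.card ≤ c) (θ : Fin m → Fin k) : (exR 𝒞 θ).card ≤ c ^ k := by
  have h := branching (Ω := Fin k → Fin w) (X := Fin k × Fin w) (fun φ v => φ v.1 = v.2) w c
    (k - 1) hw hc1 (fun Y => by convert card_prescribed w Y)
    {r : Finset (Finset (Fin k × Fin w)) | ∃ F ∈ 𝒞,
      r = (F.filter fun e => θ e.2.2 = e.1).image fun e => {(e.1, e.2.1)}} (by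
      rintro r ⟨F, hF, rfl⟩
      exact card_image_le.trans ((card_filter_le _ _).trans (hc F hF)))
  have hk1 : k - 1 + 1 = k := by omega
  rw [hk1, Fintype.card_fun, Fintype.card_fin, Fintype.card_fin] at h
  refine Nat.le_of_mul_le_mul_right (le_trans (le_of_eq ?_) h) (Nat.pow_pos hw)
  unfold exR
  congr!

/-- The sets of literals seen in the rows chosen by `φ` outside of the group `x₀`. -/
def famG (𝒞 : Set (Finset (BV k w m))) (φ : Fin k → Fin w) (x₀ : Fin k) :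
    Set (Finset (Fin m × Fin k)) :=
  {G | ∃ F ∈ 𝒞, G = (F.filter fun e => φ e.1 = e.2.1 ∧ e.1 ≠ x₀).image fun e => (e.2.2, e.1)}

theorem badP_cover (hk : 1 ≤ k) {c M : ℕ} (𝒞 : Set (Finset (BV k w m)))
    (t : PT k w m) (ht : t ∈ badP 𝒞 (M * c ^ 2)) :
    t.1 ∈ exR 𝒞 t.2 ∨ ∃ x₀, Bad (famG 𝒞 t.1 x₀) (M * c ^ 2) t.2 := by
  rw [mem_badP] at ht
  obtain ⟨hhit, hsmall⟩ := ht
  by_contra hcon
  push Not at hcon
  obtain ⟨h1, h2⟩ := hcon
  rw [exR, mem_filter] at h1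
  push Not at h1
  obtain ⟨Y, hYc, hYφ, hY⟩ := h1 (mem_univ _) (by
    rintro r ⟨F, hF, rfl⟩
    obtain ⟨e, he, hep⟩ := hhit F hF
    refine ⟨{(e.1, e.2.1)}, ?_, ?_⟩
    · rw [mem_image]
      exact ⟨e, mem_filter.2 ⟨he, hep.2⟩, rfl⟩
    · intro v hv
      rw [mem_singleton] at hv
      subst hv
      exact hep.1)
  -- a group outside of `Y`
  obtain ⟨x₀, hx₀⟩ : ∃ x₀ : Fin k, x₀ ∉ Y.image Prod.fst := by
    by_contra hall
    push Not at hall
    have : (univ : Finset (Fin k)) ⊆ Y.image Prod.fst := fun x _ => hall x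
    have := card_le_card this
    have h3 := (card_image_le (s := Y) (f := Prod.fst)).trans hYc
    rw [card_univ, Fintype.card_fin] at this
    omega
  have hYF : ∀ F ∈ 𝒞, ∃ e ∈ F, t.2 e.2.2 = e.1 ∧ (e.1, e.2.1) ∈ Y := by
    intro F hF
    obtain ⟨O, hO, hOY⟩ := hY _ ⟨F, hF, rfl⟩
    rw [mem_image] at hO
    obtain ⟨e, he, rfl⟩ := hO
    rw [mem_filter] at he
    exact ⟨e, he.1, he.2, hOY (mem_singleton_self _)⟩
  apply h2 x₀
  refine ⟨?_, ?_⟩
  · rintro G ⟨F, hF, rfl⟩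
    obtain ⟨e, he, hθ, heY⟩ := hYF F hF
    refine ⟨(e.2.2, e.1), ?_, hθ⟩
    rw [mem_image]
    refine ⟨e, mem_filter.2 ⟨he, hYφ _ heY, ?_⟩, rfl⟩
    rintro rfl
    exact hx₀ (mem_image_of_mem Prod.fst heY)
  · intro Y' hY'
    obtain ⟨F, hF, hFY⟩ := hsmall (Y'.image fun j => (t.2 j, t.1 (t.2 j), j))
      (card_image_le.trans hY') (by
        intro e he
        rw [mem_image] at he
        obtain ⟨j, -, rfl⟩ := he
        exact ⟨rfl, rfl⟩)
    refine ⟨_, ⟨F, hF, rfl⟩, ?_⟩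
    intro p hp hpY hθp
    rw [mem_image] at hp
    obtain ⟨e, he, rfl⟩ := hp
    rw [mem_filter] at he
    simp only at hpY hθp
    apply hFY e he.1
    rw [mem_image]
    refine ⟨e.2.2, hpY, ?_⟩
    rw [hθp, he.2.1]

theorem card_badP (hk : 1 ≤ k) (hw : 1 ≤ w) {c M a : ℕ} (hc1 : 1 ≤ c) (ha : k ^ c ≤ a)
    (𝒞 : Set (Finset (BV k w m))) (hc : ∀ F ∈ 𝒞, F.card ≤ c) :
    (badP 𝒞 (M * c ^ 2)).card * (w ^ k * a ^ M) ≤
      (c ^ k * a ^ M + k * w ^ k * (a - 1) ^ M) * Fintype.card (PT k w m) := by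
  set D₁ : Finset (PT k w m) := univ.filter fun t => t.1 ∈ exR 𝒞 t.2 with hD₁
  set D₂ : Fin k → Finset (PT k w m) := fun x₀ =>
    univ.filter fun t => Bad (famG 𝒞 t.1 x₀) (M * c ^ 2) t.2 with hD₂
  have hsub : badP 𝒞 (M * c ^ 2) ⊆ D₁ ∪ univ.biUnion D₂ := by
    intro t ht
    rcases badP_cover hk 𝒞 t ht with h | ⟨x₀, h⟩
    · exact mem_union_left _ (mem_filter.2 ⟨mem_univ _, h⟩)
    · exact mem_union_right _ (mem_biUnion.2 ⟨x₀, mem_univ _, mem_filter.2 ⟨mem_univ _, h⟩⟩)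
  have hN : Fintype.card (PT k w m) = w ^ k * k ^ m := by
    rw [Fintype.card_prod, Fintype.card_fun, Fintype.card_fun, Fintype.card_fin, Fintype.card_fin,
      Fintype.card_fin]
  have h1 : D₁.card ≤ k ^ m * c ^ k := by
    rw [card_eq_sum_card_fiberwise (f := Prod.snd) (t := univ) (fun _ _ => mem_univ _)]
    calc ∑ θ : Fin m → Fin k, (D₁.filter fun t => t.2 = θ).card
        ≤ ∑ θ : Fin m → Fin k, c ^ k := by
          apply sum_le_sum
          intro θ _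
          refine le_trans ?_ (card_exR hk hw hc1 𝒞 hc θ)
          apply card_le_card_of_injOn Prod.fst
          · intro t ht
            rw [mem_coe, mem_filter, hD₁, mem_filter] at ht
            rw [mem_coe, ← ht.2]
            exact ht.1.2
          · intro t ht t' ht' h
            rw [mem_coe, mem_filter] at ht ht'
            exact Prod.ext h (ht.2.trans ht'.2.symm)
      _ = k ^ m * c ^ k := by
          rw [sum_const, smul_eq_mul, card_univ, Fintype.card_fun, Fintype.card_fin,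
            Fintype.card_fin]
  have h2 : ∀ x₀, (D₂ x₀).card * a ^ M ≤ w ^ k * ((a - 1) ^ M * k ^ m) := by
    intro x₀
    rw [card_eq_sum_card_fiberwise (f := Prod.fst) (t := univ) (fun _ _ => mem_univ _), sum_mul]
    calc ∑ φ : Fin k → Fin w, ((D₂ x₀).filter fun t => t.1 = φ).card * a ^ M
        ≤ ∑ φ : Fin k → Fin w, (a - 1) ^ M * k ^ m := by
          apply sum_le_sum
          intro φ _
          have hcols := cols (D := Fin m) (V := Fin k) a c M (by rwa [Fintype.card_fin])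
            (by rwa [Fintype.card_fin]) (famG 𝒞 φ x₀)
            (by
              rintro G ⟨F, hF, rfl⟩
              exact card_image_le.trans ((card_filter_le _ _).trans (hc F hF)))
            (by
              rintro G ⟨F, hF, rfl⟩
              refine ⟨fun _ => x₀, ?_⟩
              intro p hp
              rw [mem_image] at hp
              obtain ⟨e, he, rfl⟩ := hp
              exact (mem_filter.1 he).2.2.symm)
          have hcard : Fintype.card (Fin m → Fin k) = k ^ m := by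
            rw [Fintype.card_fun, Fintype.card_fin, Fintype.card_fin]
          have hcols' : (univ.filter (Bad (famG 𝒞 φ x₀) (M * c ^ 2))).card * a ^ M ≤
              (a - 1) ^ M * k ^ m := by
            rw [← hcard]
            exact hcols
          refine le_trans (Nat.mul_le_mul_right _ ?_) hcols'
          apply card_le_card_of_injOn Prod.snd
          · intro t ht
            rw [mem_coe, mem_filter, hD₂, mem_filter] at ht
            rw [mem_coe, mem_filter, ← ht.2]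
            exact ⟨mem_univ _, ht.1.2⟩
          · intro t ht t' ht' h
            rw [mem_coe, mem_filter] at ht ht'
            exact Prod.ext (ht.2.trans ht'.2.symm) h
      _ = w ^ k * ((a - 1) ^ M * k ^ m) := by
          rw [sum_const, smul_eq_mul, card_univ, Fintype.card_fun, Fintype.card_fin,
            Fintype.card_fin]
  have h3 : (badP 𝒞 (M * c ^ 2)).card ≤ D₁.card + ∑ x₀, (D₂ x₀).card :=
    (card_le_card hsub).trans ((card_union_le _ _).trans (Nat.add_le_add_left card_biUnion_le _))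
  calc (badP 𝒞 (M * c ^ 2)).card * (w ^ k * a ^ M)
      ≤ (D₁.card + ∑ x₀, (D₂ x₀).card) * (w ^ k * a ^ M) := Nat.mul_le_mul_right _ h3
    _ = D₁.card * (w ^ k * a ^ M) + w ^ k * ∑ x₀, (D₂ x₀).card * a ^ M := by
        rw [← sum_mul]; ring
    _ ≤ (k ^ m * c ^ k) * (w ^ k * a ^ M) +
          w ^ k * ∑ _x₀ : Fin k, w ^ k * ((a - 1) ^ M * k ^ m) := by
        apply Nat.add_le_add
        · exact Nat.mul_le_mul_right _ h1
        · exact Nat.mul_le_mul_left _ (sum_le_sum fun x₀ _ => h2 x₀)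
    _ = _ := by
        rw [sum_const, smul_eq_mul, card_univ, Fintype.card_fin, hN]
        ring

variable (A c ℓ : ℕ)

/-- `h` has a pair of approximators, correct outside of the error sets. -/
def Appr (PE : Finset (PT k w m)) (NE : Finset (BV k w m → Fin A)) (h : Set (BV k w m) → Prop) :
    Prop :=
  ∃ (𝒲 𝒞 : Set (Finset (BV k w m))),
    (∀ W ∈ 𝒲, W.card ≤ ℓ) ∧ (∀ F ∈ 𝒞, F.card ≤ c) ∧ (∀ W ∈ 𝒲, ∀ F ∈ 𝒞, ∃ e ∈ F, e ∈ W) ∧
    (∀ t, t ∉ PE → h (pos t) → ∃ W ∈ 𝒲, ∀ e ∈ W, e ∈ pos t) ∧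
    (∀ χ, χ ∉ NE → ¬ h (negT χ) → ∃ F ∈ 𝒞, ∀ e ∈ F, (χ e).val = 0)

variable {A c ℓ}

theorem Appr.mono {PE PE' : Finset (PT k w m)} {NE NE' : Finset (BV k w m → Fin A)}
    {h : Set (BV k w m) → Prop} (hP : PE ⊆ PE') (hN : NE ⊆ NE') (H : Appr A c ℓ PE NE h) :
    Appr A c ℓ PE' NE' h := by
  obtain ⟨𝒲, 𝒞, h1, h2, h3, h4, h5⟩ := H
  exact ⟨𝒲, 𝒞, h1, h2, h3, fun φ hφ => h4 φ (fun h => hφ (hP h)),
    fun χ hχ => h5 χ (fun h => hχ (hN h))⟩

theorem Appr.congr {PE : Finset (PT k w m)} {NE : Finset (BV k w m → Fin A)}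
    {h h' : Set (BV k w m) → Prop} (hh : ∀ z, h' z ↔ h z) (H : Appr A c ℓ PE NE h) :
    Appr A c ℓ PE NE h' := by
  obtain ⟨𝒲, 𝒞, h1, h2, h3, h4, h5⟩ := H
  exact ⟨𝒲, 𝒞, h1, h2, h3, fun φ hφ h => h4 φ hφ ((hh _).1 h),
    fun χ hχ h => h5 χ hχ (fun h' => h ((hh _).2 h'))⟩

theorem appr_leaf (hℓ : 1 ≤ ℓ) (hc : 1 ≤ c) {h : Set (BV k w m) → Prop} (hh : Leaf h) :
    Appr A c ℓ ∅ ∅ h := by
  rcases hh with ⟨e, he⟩ | ⟨t, ht⟩
  · refine ⟨{{e}}, {{e}}, ?_, ?_, ?_, ?_, ?_⟩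
    · rintro W rfl; simpa using hℓ
    · rintro F rfl; simpa using hc
    · rintro W rfl F rfl
      exact ⟨e, by simp, by simp⟩
    · intro t _ hφ
      refine ⟨_, rfl, ?_⟩
      intro e' he'
      rw [mem_singleton] at he'
      subst he'
      exact (he _).1 hφ
    · intro χ _ hχ
      refine ⟨_, rfl, ?_⟩
      intro e' he'
      rw [mem_singleton] at he'
      subst he'
      rw [he] at hχ
      simpa [negT] using hχ
  · by_cases htt : t
    · refine ⟨{∅}, ∅, ?_, ?_, ?_, ?_, ?_⟩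
      · rintro W rfl; simp
      · intro F hF; exact hF.elim
      · intro W _ F hF; exact hF.elim
      · intro φ _ _
        exact ⟨∅, rfl, by simp⟩
      · intro χ _ hχ
        exact (hχ ((ht _).2 htt)).elim
    · refine ⟨∅, {∅}, ?_, ?_, ?_, ?_, ?_⟩
      · intro F hF; exact hF.elim
      · rintro F rfl; simp
      · intro W hW; exact hW.elim
      · intro φ _ hφ
        exact (htt ((ht _).1 hφ)).elim
      · intro χ _ _
        exact ⟨∅, rfl, by simp⟩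

theorem appr_and (hk : 1 ≤ k) (hw : 1 ≤ w) (hc : 1 ≤ c) {M a : ℕ} (ha : k ^ c ≤ a)
    {PE : Finset (PT k w m)} {NE : Finset (BV k w m → Fin A)} {p q : Set (BV k w m) → Prop}
    (hp : Appr A c (M * c ^ 2) PE NE p) (hq : Appr A c (M * c ^ 2) PE NE q) :
    ∃ D : Finset (PT k w m), D.card * (w ^ k * a ^ M) ≤
        (c ^ k * a ^ M + k * w ^ k * (a - 1) ^ M) * Fintype.card (PT k w m) ∧
      Appr A c (M * c ^ 2) (PE ∪ D) NE (fun z => p z ∧ q z) := by
  obtain ⟨𝒲₁, 𝒞₁, h1, h2, h3, h4, h5⟩ := hp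
  obtain ⟨𝒲₂, 𝒞₂, k1, k2, k3, k4, k5⟩ := hq
  have hcc : ∀ F ∈ 𝒞₁ ∪ 𝒞₂, F.card ≤ c := by
    rintro F (hF | hF)
    · exact h2 F hF
    · exact k2 F hF
  refine ⟨badP (𝒞₁ ∪ 𝒞₂) (M * c ^ 2), card_badP hk hw hc ha _ hcc, ?_⟩
  refine ⟨{W | W.card ≤ M * c ^ 2 ∧ ∀ F ∈ 𝒞₁ ∪ 𝒞₂, ∃ e ∈ F, e ∈ W}, 𝒞₁ ∪ 𝒞₂,
    fun W hW => hW.1, hcc, fun W hW F hF => hW.2 F hF, ?_, ?_⟩
  · rintro t ht ⟨hpz, hqz⟩
    rw [notMem_union] at ht
    obtain ⟨W₁, hW₁, ht₁⟩ := h4 t ht.1 hpz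
    obtain ⟨W₂, hW₂, ht₂⟩ := k4 t ht.1 hqz
    have hD := ht.2
    rw [mem_badP] at hD
    push Not at hD
    obtain ⟨Y, hYc, hYt, hY⟩ := hD (by
      rintro F (hF | hF)
      · obtain ⟨e, he, heW⟩ := h3 W₁ hW₁ F hF
        exact ⟨e, he, ht₁ e heW⟩
      · obtain ⟨e, he, heW⟩ := k3 W₂ hW₂ F hF
        exact ⟨e, he, ht₂ e heW⟩)
    exact ⟨Y, ⟨hYc, hY⟩, hYt⟩
  · intro χ hχ hnot
    rw [not_and_or] at hnot
    rcases hnot with hnot | hnot
    · obtain ⟨F, hF, hFχ⟩ := h5 χ hχ hnot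
      exact ⟨F, Or.inl hF, hFχ⟩
    · obtain ⟨F, hF, hFχ⟩ := k5 χ hχ hnot
      exact ⟨F, Or.inr hF, hFχ⟩

theorem appr_or (hA : 1 ≤ A) (hℓ : 1 ≤ ℓ) {PE : Finset (PT k w m)}
    {NE : Finset (BV k w m → Fin A)} {p q : Set (BV k w m) → Prop}
    (hp : Appr A c ℓ PE NE p) (hq : Appr A c ℓ PE NE q) :
    ∃ D : Finset (BV k w m → Fin A),
      D.card * A ^ (c + 1) ≤ ℓ ^ (c + 1) * Fintype.card (BV k w m → Fin A) ∧
      Appr A c ℓ PE (NE ∪ D) (fun z => p z ∨ q z) := by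
  obtain ⟨𝒲₁, 𝒞₁, h1, h2, h3, h4, h5⟩ := hp
  obtain ⟨𝒲₂, 𝒞₂, k1, k2, k3, k4, k5⟩ := hq
  set R : Set (Finset (Finset (BV k w m))) :=
    {r | ∃ W ∈ 𝒲₁ ∪ 𝒲₂, r = W.image fun e => {e}} with hR
  have hWc : ∀ W ∈ 𝒲₁ ∪ 𝒲₂, W.card ≤ ℓ := by
    rintro W (hW | hW)
    · exact h1 W hW
    · exact k1 W hW
  have hRc : ∀ r ∈ R, r.card ≤ ℓ := by
    rintro r ⟨W, hW, rfl⟩
    exact card_image_le.trans (hWc W hW)
  have hbr := branching (Ω := BV k w m → Fin A) (X := BV k w m) (fun χ e => (χ e).val = 0) A ℓ c hA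
    hℓ (fun Y => by convert card_zero A hA Y) R hRc
  refine ⟨_, hbr, ?_⟩
  refine ⟨𝒲₁ ∪ 𝒲₂, {F | F.card ≤ c ∧ ∀ W ∈ 𝒲₁ ∪ 𝒲₂, ∃ e ∈ F, e ∈ W}, hWc, fun F hF => hF.1,
    fun W hW F hF => hF.2 W hW, ?_, ?_⟩
  · rintro φ hφ (h | h)
    · obtain ⟨W, hW, hWφ⟩ := h4 φ hφ h
      exact ⟨W, Or.inl hW, hWφ⟩
    · obtain ⟨W, hW, hWφ⟩ := k4 φ hφ h
      exact ⟨W, Or.inr hW, hWφ⟩
  · intro χ hχ hnot
    rw [not_or] at hnot
    rw [notMem_union] at hχ
    obtain ⟨F₁, hF₁, hχ₁⟩ := h5 χ hχ.1 hnot.1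
    obtain ⟨F₂, hF₂, hχ₂⟩ := k5 χ hχ.1 hnot.2
    have hD := hχ.2
    simp only [mem_filter, mem_univ, true_and, not_and, not_forall, not_exists] at hD
    have hsat : ∀ r ∈ R, ∃ O ∈ r, ∀ e ∈ O, (χ e).val = 0 := by
      rintro r ⟨W, hW, rfl⟩
      rcases hW with hW | hW
      · obtain ⟨e, he, heW⟩ := h3 W hW F₁ hF₁
        refine ⟨{e}, mem_image_of_mem _ heW, ?_⟩
        intro e' he'
        rw [mem_singleton] at he'
        subst he'
        exact hχ₁ _ he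
      · obtain ⟨e, he, heW⟩ := k3 W hW F₂ hF₂
        refine ⟨{e}, mem_image_of_mem _ heW, ?_⟩
        intro e' he'
        rw [mem_singleton] at he'
        subst he'
        exact hχ₂ _ he
    obtain ⟨Y, hYc, hYχ, hY⟩ := hD hsat
    refine ⟨Y, ⟨hYc, ?_⟩, hYχ⟩
    intro W hW
    obtain ⟨O, hO, hOY⟩ := hY _ ⟨W, hW, rfl⟩
    rw [not_not] at hOY
    rw [mem_image] at hO
    obtain ⟨e, he, rfl⟩ := hO
    exact ⟨e, hOY (by simp), he⟩

/-- Approximation of a whole straight-line program. -/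
theorem appr_slp (hk : 1 ≤ k) (hw : 1 ≤ w) (hA : 1 ≤ A) (hc : 1 ≤ c) {M a : ℕ} (hM : 1 ≤ M)
    (ha : k ^ c ≤ a) (g : ℕ → Set (BV k w m) → Prop) (s : ℕ) (hg : IsSLP g s) :
    ∃ (PE : Finset (PT k w m)) (NE : Finset (BV k w m → Fin A)),
      PE.card * (w ^ k * a ^ M) ≤
        s * ((c ^ k * a ^ M + k * w ^ k * (a - 1) ^ M) * Fintype.card (PT k w m)) ∧
      NE.card * A ^ (c + 1) ≤
        s * ((M * c ^ 2) ^ (c + 1) * Fintype.card (BV k w m → Fin A)) ∧
      ∀ i < s, Appr A c (M * c ^ 2) PE NE (g i) := by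
  have hℓ : 1 ≤ M * c ^ 2 := Nat.mul_pos hM (Nat.pow_pos hc)
  induction s with
  | zero => exact ⟨∅, ∅, by simp, by simp, by intro i hi; omega⟩
  | succ s ih =>
    obtain ⟨PE, NE, hPE, hNE, happ⟩ := ih (fun i hi => hg i (by omega))
    have havail : ∀ p, Avail g s p → Appr A c (M * c ^ 2) PE NE p := by
      rintro p (hp | ⟨j, hj, hp⟩)
      · exact (appr_leaf hℓ hc hp).mono (by simp) (by simp)
      · exact (happ j hj).congr hp
    rcases hg s (by omega) with hleaf | ⟨p, q, hp, hq, hgs⟩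
    · refine ⟨PE, NE, hPE.trans (Nat.mul_le_mul_right _ (by omega)),
        hNE.trans (Nat.mul_le_mul_right _ (by omega)), ?_⟩
      intro i hi
      rcases Nat.lt_succ_iff_lt_or_eq.1 hi with hi | rfl
      · exact happ i hi
      · exact (appr_leaf hℓ hc hleaf).mono (by simp) (by simp)
    · rcases hgs with hgs | hgs
      · obtain ⟨D, hD, hap⟩ := appr_and hk hw hc ha (havail p hp) (havail q hq)
        refine ⟨PE ∪ D, NE, ?_, hNE.trans (Nat.mul_le_mul_right _ (by omega)), ?_⟩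
        · calc (PE ∪ D).card * (w ^ k * a ^ M) ≤ (PE.card + D.card) * (w ^ k * a ^ M) :=
                Nat.mul_le_mul_right _ (card_union_le _ _)
            _ = PE.card * (w ^ k * a ^ M) + D.card * (w ^ k * a ^ M) := by ring
            _ ≤ s * ((c ^ k * a ^ M + k * w ^ k * (a - 1) ^ M) * Fintype.card (PT k w m)) +
                (c ^ k * a ^ M + k * w ^ k * (a - 1) ^ M) * Fintype.card (PT k w m) :=
                Nat.add_le_add hPE hD
            _ = _ := by ring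
        · intro i hi
          rcases Nat.lt_succ_iff_lt_or_eq.1 hi with hi | rfl
          · exact (happ i hi).mono subset_union_left (by simp)
          · exact hap.congr hgs
      · obtain ⟨D, hD, hap⟩ := appr_or hA hℓ (havail p hp) (havail q hq)
        refine ⟨PE, NE ∪ D, hPE.trans (Nat.mul_le_mul_right _ (by omega)), ?_, ?_⟩
        · calc (NE ∪ D).card * A ^ (c + 1) ≤ (NE.card + D.card) * A ^ (c + 1) :=
                Nat.mul_le_mul_right _ (card_union_le _ _)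
            _ = NE.card * A ^ (c + 1) + D.card * A ^ (c + 1) := by ring
            _ ≤ s * ((M * c ^ 2) ^ (c + 1) * Fintype.card (BV k w m → Fin A)) +
                (M * c ^ 2) ^ (c + 1) * Fintype.card (BV k w m → Fin A) :=
                Nat.add_le_add hNE hD
            _ = _ := by ring
        · intro i hi
          rcases Nat.lt_succ_iff_lt_or_eq.1 hi with hi | rfl
          · exact (happ i hi).mono (by simp) subset_union_left
          · exact hap.congr hgs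

end

end Pool.Agent.T9h75.WH
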