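import Pool.Agent.T9h16.Approx

set_option autoImplicit false
set_option linter.unusedSectionVars false

namespace Pool.Agent.T9h75.WH

open Finset
open scoped Classical

section
variable {D V : Type} [Fintype D] [Fintype V] [DecidableEq D]

/-- Overwrite `u` by `τ` on `J`. -/
noncomputable def ow (J : Finset D) (τ u : D → V) : D → V := fun j => if j ∈ J then τ j else u j

theorem ow_mem {J : Finset D} {τ u : D → V} {j : D} (h : j ∈ J) : ow J τ u j = τ j := if_pos h

theorem ow_notMem {J : Finset D} {τ u : D → V} {j : D} (h : j ∉ J) : ow J τ u j = u j := if_neg h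

theorem avoid_step (S : Finset (D → V)) (J : Finset D) (τ : D → V) (a : ℕ)
    (ha : Fintype.card V ^ J.card ≤ a) (hS : ∀ u ∈ S, ow J τ u ∈ S) :
    (S.filter fun u => ∃ j ∈ J, u j ≠ τ j).card * a ≤ (a - 1) * S.card := by
  have hsplit := card_filter_add_card_filter_not (s := S) (fun u => ∃ j ∈ J, u j ≠ τ j)
  have himg : S.image (ow J τ) ⊆ S.filter fun u => ¬ ∃ j ∈ J, u j ≠ τ j := by
    intro v hv
    rw [mem_image] at hv
    obtain ⟨u, hu, rfl⟩ := hv
    rw [mem_filter]
    refine ⟨hS u hu, ?_⟩
    rintro ⟨j, hj, h⟩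
    exact h (ow_mem hj)
  have hfib : S.card ≤ a * (S.image (ow J τ)).card := by
    apply card_le_mul_card_image
    intro v hv
    refine le_trans ?_ ha
    have : (S.filter fun u => ow J τ u = v).card ≤ (univ : Finset (J → V)).card := by
      apply card_le_card_of_injOn (fun u => fun j : J => u j.1)
      · intro u _
        simp
      · intro u hu u' hu' h
        rw [mem_coe, mem_filter] at hu hu'
        funext j
        by_cases hj : j ∈ J
        · exact congrFun h ⟨j, hj⟩
        · have h1 := congrFun (hu.2.trans hu'.2.symm) j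
          rwa [ow_notMem hj, ow_notMem hj] at h1
    refine this.trans ?_
    rw [card_univ, Fintype.card_fun, Fintype.card_coe]
  have h2 : S.card ≤ a * (S.filter fun u => ¬ ∃ j ∈ J, u j ≠ τ j).card :=
    hfib.trans (Nat.mul_le_mul_left _ (card_le_card himg))
  generalize (S.filter fun u => ∃ j ∈ J, u j ≠ τ j).card = x at *
  generalize (S.filter fun u => ¬ ∃ j ∈ J, u j ≠ τ j).card = y at *
  generalize S.card = z at *
  rcases Nat.eq_zero_or_pos a with rfl | ha0
  · simp
  · obtain ⟨b, rfl⟩ : ∃ b, a = b + 1 := ⟨a - 1, by omega⟩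
    simp only [Nat.add_sub_cancel]
    subst hsplit
    nlinarith

/-- Few functions avoid all the patterns `τ i` on the pairwise disjoint sets `J i`. -/
theorem avoid_many (S : Finset (D → V)) (J : ℕ → Finset D) (τ : ℕ → D → V) (a : ℕ)
    (ha : ∀ i, Fintype.card V ^ (J i).card ≤ a) (hS : ∀ i, ∀ u ∈ S, ow (J i) (τ i) u ∈ S)
    (M : ℕ) (hJ : ∀ i < M, ∀ i' < i, Disjoint (J i') (J i)) :
    (S.filter fun u => ∀ i < M, ∃ j ∈ J i, u j ≠ τ i j).card * a ^ M ≤ (a - 1) ^ M * S.card := by
  induction M with
  | zero => simp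
  | succ M ih =>
    have ih' := ih (fun i hi => hJ i (by omega))
    set S' := S.filter fun u => ∀ i < M, ∃ j ∈ J i, u j ≠ τ i j with hS'
    have hcl : ∀ u ∈ S', ow (J M) (τ M) u ∈ S' := by
      intro u hu
      rw [hS', mem_filter] at hu ⊢
      refine ⟨hS M u hu.1, fun i hi => ?_⟩
      obtain ⟨j, hj, h⟩ := hu.2 i hi
      refine ⟨j, hj, ?_⟩
      have hd := hJ M (by omega) i hi
      rw [disjoint_left] at hd
      rw [ow_notMem (hd hj)]
      exact h
    have h1 := avoid_step S' (J M) (τ M) a (ha M) hcl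
    have h2 : (S.filter fun u => ∀ i < M + 1, ∃ j ∈ J i, u j ≠ τ i j) =
        S'.filter fun u => ∃ j ∈ J M, u j ≠ τ M j := by
      ext u
      simp only [hS', mem_filter, and_assoc, and_congr_right_iff]
      intro _
      constructor
      · intro h
        exact ⟨fun i hi => h i (by omega), h M (by omega)⟩
      · rintro ⟨h, h'⟩ i hi
        rcases Nat.lt_succ_iff_lt_or_eq.1 hi with hi | rfl
        · exact h i hi
        · exact h'
    rw [h2]
    calc _ * a ^ (M + 1) = (S'.filter fun u => ∃ j ∈ J M, u j ≠ τ M j).card * a * a ^ M := by ring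
      _ ≤ (a - 1) * S'.card * a ^ M := Nat.mul_le_mul_right _ h1
      _ = (a - 1) * (S'.card * a ^ M) := by ring
      _ ≤ (a - 1) * ((a - 1) ^ M * S.card) := Nat.mul_le_mul_left _ ih'
      _ = _ := by ring

end

end Pool.Agent.T9h75.WH
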