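import Pool.Agent.T9h75.WH.Model
import Pool.Agent.T9h16.Approx

set_option autoImplicit false
set_option linter.unusedSectionVars false

namespace Pool.Agent.T9h75.WH

open Finset Pool.Agent.T9h16
open scoped Classical

section basic
variable {α β : Type}

theorem run_length (x : α → Prop) (gs : List (Gate α)) (vs : List Prop) :
    (run x gs vs).length = vs.length + gs.length := by
  induction gs generalizing vs with
  | nil => simp [run]
  | cons g gs ih =>
    rw [run, ih]
    simp
    omega

theorem run_take (x : α → Prop) (gs : List (Gate α)) (vs : List Prop) :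
    (run x gs vs).take vs.length = vs := by
  induction gs generalizing vs with
  | nil => simp [run]
  | cons g gs ih =>
    have h := congrArg (List.take vs.length) (ih (vs ++ [g.value x vs]))
    rw [List.take_take, List.length_append] at h
    rw [run]
    rw [min_eq_left (Nat.le_add_right _ _)] at h
    rw [h]
    simp

theorem run_get (x : α → Prop) (gs : List (Gate α)) (vs : List Prop) (i : ℕ)
    (hi : i < gs.length) :
    (run x gs vs).getD (vs.length + i) False =
      (gs[i]).value x ((run x gs vs).take (vs.length + i)) := by
  induction gs generalizing vs i with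
  | nil => simp at hi
  | cons g gs ih =>
    rcases i with _ | i
    · rw [run]
      have h := run_take x gs (vs ++ [g.value x vs])
      rw [List.length_append, List.length_singleton] at h
      have h1 : (run x gs (vs ++ [g.value x vs])).getD (vs.length + 0) False = g.value x vs := by
        have h2 : ((run x gs (vs ++ [g.value x vs])).take (vs.length + 1)).getD vs.length False =
            (run x gs (vs ++ [g.value x vs])).getD vs.length False := by
          simp [List.getD_eq_getElem?_getD]
        rw [Nat.add_zero, ← h2, h]
        simp [List.getD_eq_getElem?_getD]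
      have h3 : (run x gs (vs ++ [g.value x vs])).take (vs.length + 0) = vs := by
        have := congrArg (List.take vs.length) h
        rw [List.take_take, min_eq_left (Nat.le_succ _)] at this
        rw [Nat.add_zero, this]
        simp
      rw [h1, h3]
      rfl
    · have h := ih (vs ++ [g.value x vs]) i (by simpa using hi)
      rw [List.length_append, List.length_singleton] at h
      have e : vs.length + 1 + i = vs.length + (i + 1) := by omega
      rw [e] at h
      rw [run, h]
      rfl

/-- The value of a wire, given the values `v` of the gates with numbers below `i`. -/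
def Wire.val (x : α → Prop) (v : ℕ → Prop) (i : ℕ) : Wire α → Prop
  | .var a => x a
  | .const b => b = true
  | .gate k => k < i ∧ v k

/-- The value of a gate, given the values `v` of the gates with numbers below `i`. -/
def Gate.val (x : α → Prop) (v : ℕ → Prop) (i : ℕ) : Gate α → Prop
  | .and u w => u.val x v i ∧ w.val x v i
  | .or u w => u.val x v i ∨ w.val x v i
  | .not u => ¬ u.val x v i

theorem Wire.value_take (x : α → Prop) (L : List Prop) (i : ℕ) (w : Wire α) :
    w.value x (L.take i) ↔ w.val x (fun k => L.getD k False) i := by
  cases w with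
  | var a => exact Iff.rfl
  | const b => exact Iff.rfl
  | gate k =>
    by_cases hk : k < i
    · simp [Wire.value, Wire.val, List.getD_eq_getElem?_getD, hk]
    · simp [Wire.value, Wire.val, List.getD_eq_getElem?_getD, hk]

theorem Gate.value_take (x : α → Prop) (L : List Prop) (i : ℕ) (g : Gate α) :
    g.value x (L.take i) ↔ g.val x (fun k => L.getD k False) i := by
  cases g with
  | and u w => exact and_congr (Wire.value_take x L i u) (Wire.value_take x L i w)
  | or u w => exact or_congr (Wire.value_take x L i u) (Wire.value_take x L i w)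
  | not u => exact not_congr (Wire.value_take x L i u)

/-- The value of the gate with number `i`. -/
def gval (gs : List (Gate α)) (x : α → Prop) (i : ℕ) : Prop := (run x gs []).getD i False

theorem gval_iff (gs : List (Gate α)) (x : α → Prop) (i : ℕ) (hi : i < gs.length) :
    gval gs x i ↔ (gs[i]).val x (gval gs x) i := by
  have h := run_get x gs [] i hi
  simp only [List.length_nil, Nat.zero_add] at h
  change (run x gs []).getD i False ↔ _
  rw [h]
  exact Gate.value_take x _ i _

theorem Circuit.eval_iff (C : Circuit α β) (x : α → Prop) (b : β) :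
    C.eval x b ↔ (C.out b).val x (gval C.gates x) C.size := by
  have h := Wire.value_take x (run x C.gates []) C.size (C.out b)
  rw [List.take_of_length_le (by rw [run_length]; simp [Circuit.size])] at h
  exact h

theorem Wire.val_congr {x : α → Prop} {v v' : ℕ → Prop} {i : ℕ} (h : ∀ k < i, v k ↔ v' k)
    (w : Wire α) : w.val x v i ↔ w.val x v' i := by
  cases w with
  | var a => exact Iff.rfl
  | const b => exact Iff.rfl
  | gate k => exact and_congr_right fun hk => h k hk

theorem Wire.val_mono {x x' : α → Prop} (hx : ∀ a, x a → x' a) {v v' : ℕ → Prop} {i : ℕ}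
    (h : ∀ k < i, v k → v' k) (w : Wire α) : w.val x v i → w.val x' v' i := by
  cases w with
  | var a => exact hx a
  | const b => exact id
  | gate k => exact fun hk => ⟨hk.1, h k hk.1 hk.2⟩

/-- Replace the NOT gates of a list of gates by constants. -/
noncomputable def freeze (gs : List (Gate α)) (c : ℕ → Prop) : List (Gate α) :=
  gs.mapIdx fun i g => if g.isNot then .or (.const (decide (c i))) (.const (decide (c i))) else g

theorem freeze_length (gs : List (Gate α)) (c : ℕ → Prop) : (freeze gs c).length = gs.length := by
  simp [freeze]

theorem freeze_and (gs : List (Gate α)) (c : ℕ → Prop) (x : α → Prop) (i : ℕ) (hi : i < gs.length)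
    {u w : Wire α} (h : gs[i] = .and u w) :
    gval (freeze gs c) x i ↔
      u.val x (gval (freeze gs c) x) i ∧ w.val x (gval (freeze gs c) x) i := by
  rw [gval_iff _ x i (by rw [freeze_length]; exact hi)]
  simp [freeze, h, Gate.isNot, Gate.val]

theorem freeze_or (gs : List (Gate α)) (c : ℕ → Prop) (x : α → Prop) (i : ℕ) (hi : i < gs.length)
    {u w : Wire α} (h : gs[i] = .or u w) :
    gval (freeze gs c) x i ↔
      u.val x (gval (freeze gs c) x) i ∨ w.val x (gval (freeze gs c) x) i := by
  rw [gval_iff _ x i (by rw [freeze_length]; exact hi)]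
  simp [freeze, h, Gate.isNot, Gate.val]

theorem freeze_not (gs : List (Gate α)) (c : ℕ → Prop) (x : α → Prop) (i : ℕ) (hi : i < gs.length)
    {u : Wire α} (h : gs[i] = .not u) :
    gval (freeze gs c) x i ↔ c i := by
  rw [gval_iff _ x i (by rw [freeze_length]; exact hi)]
  simp [freeze, h, Gate.isNot, Gate.val, Wire.val]

end basic

/-- A monotone way of writing a family (indexed by `ι`) of block inputs into the variables `α` of a
circuit, such that every variable is a constant or one variable of one block. -/
structure Emb (α ι E : Type) where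
  X : (ι → Set E) → α → Prop
  mono : ∀ y y', (∀ i, y i ⊆ y' i) → ∀ a, X y a → X y' a
  leaf : ∀ a, (∃ t : Prop, ∀ y, X y a ↔ t) ∨ ∃ i b, ∀ y, X y a ↔ b ∈ y i

/-- No monotone straight-line program with `s` gates computes wires (indexed by `β`) from which `T`
is obtained by the acceptance condition `Acc`, together with at most `s` further wires. -/
def Hard {E β : Type} (T : Set E → Prop) (s : ℕ) (Acc : (β → Prop) → Prop) : Prop :=
  ∀ gt : ℕ → Set E → Prop, IsSLP gt s →
    ∀ wr : β → Set E → Prop, (∀ b, Avail gt s (wr b)) →
    ∀ xw : ℕ → Set E → Prop, (∀ i < s, Avail gt s (xw i)) →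
    (∀ z, T z → Acc (fun b => wr b z) ∨ ∃ i < s, xw i z) →
    (∀ z, ¬ T z → ¬ Acc (fun b => wr b z) ∧ ∀ i < s, ¬ xw i z) → False

section
variable {α β ι E : Type}

theorem Emb.leaf_update (M : Emb α ι E) (y : ι → Set E) (b : ι) (a : α) :
    Leaf (fun z => M.X (Function.update y b z) a) := by
  rcases M.leaf a with ⟨t, ht⟩ | ⟨i, v, hv⟩
  · exact Or.inr ⟨t, fun z => ht _⟩
  · by_cases hib : i = b
    · subst hib
      left
      refine ⟨v, fun z => ?_⟩
      change M.X (Function.update y i z) a ↔ v ∈ z
      rw [hv, Function.update_self]
    · right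
      refine ⟨v ∈ y i, fun z => ?_⟩
      change M.X (Function.update y b z) a ↔ v ∈ y i
      rw [hv, Function.update_of_ne hib]

theorem Emb.mono_update (M : Emb α ι E) {y : ι → Set E} {b : ι} (hb : y b = ∅)
    (z : Set E) : ∀ a, M.X y a → M.X (Function.update y b z) a := by
  apply M.mono
  intro i
  by_cases hib : i = b
  · subst hib
    rw [hb]
    exact Set.empty_subset _
  · rw [Function.update_of_ne hib]

/-- Wires of a frozen circuit are available. -/
theorem avail_wire {gs : List (Gate α)} {X : Set E → α → Prop}
    (hX : ∀ a, Leaf fun z => X z a) (i : ℕ) (w : Wire α) :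
    Avail (fun k z => gval gs (X z) k) i (fun z => w.val (X z) (gval gs (X z)) i) := by
  cases w with
  | var a => exact Or.inl (hX a)
  | const b => exact Or.inl (Or.inr ⟨b = true, fun _ => Iff.rfl⟩)
  | gate k =>
    by_cases hk : k < i
    · exact Or.inr ⟨k, hk, fun z => ⟨fun h => h.2, fun h => ⟨hk, h⟩⟩⟩
    · exact Or.inl (Or.inr ⟨False, fun z => ⟨fun h => hk h.1, fun h => h.elim⟩⟩)

theorem slp_freeze {gs : List (Gate α)} {X : Set E → α → Prop}
    (hX : ∀ a, Leaf fun z => X z a) (c : ℕ → Prop) :
    IsSLP (fun k z => gval (freeze gs c) (X z) k) gs.length := by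
  intro i hi
  rcases hg : gs[i] with ⟨u, w⟩ | ⟨u, w⟩ | u
  · right
    exact ⟨_, _, avail_wire hX i u, avail_wire hX i w,
      Or.inl fun z => freeze_and gs c (X z) i hi hg⟩
  · right
    exact ⟨_, _, avail_wire hX i u, avail_wire hX i w,
      Or.inr fun z => freeze_or gs c (X z) i hi hg⟩
  · left
    right
    exact ⟨c i, fun z => freeze_not gs c (X z) i hi hg⟩

/-- One step of the chain: some negative input of block `b` changes the value of a NOT gate. -/
theorem block_step {T : Set E → Prop} {Acc : (β → Prop) → Prop} (C : Circuit α β)
    (hhard : Hard T C.size Acc) (M : Emb α ι E)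
    (hout : ∀ y, Acc (C.eval (M.X y)) ↔ ∃ i, T (y i))
    (y : ι → Set E) (hy : ∀ i, ¬ T (y i)) (b : ι) (hb : y b = ∅) :
    ∃ z, ¬ T z ∧ ∃ i, ∃ hi : i < C.gates.length, (C.gates[i]).isNot ∧
      ¬ (gval C.gates (M.X y) i ↔ gval C.gates (M.X (Function.update y b z)) i) := by
  by_contra hcon
  have hsame : ∀ z, ¬ T z → ∀ i (hi : i < C.gates.length), (C.gates[i]).isNot →
      (gval C.gates (M.X y) i ↔ gval C.gates (M.X (Function.update y b z)) i) := by
    intro z hz i hi hn
    by_contra h
    exact hcon ⟨z, hz, i, hi, hn, h⟩
  set X : Set E → α → Prop := fun z => M.X (Function.update y b z) with hXdef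
  have hX : ∀ a, Leaf fun z => X z a := fun a => M.leaf_update y b a
  set c : ℕ → Prop := gval C.gates (M.X y) with hc
  set fr : Set E → ℕ → Prop := fun z => gval (freeze C.gates c) (X z) with hfr
  -- the real circuit
  have hreal : ∀ z i, gval C.gates (M.X (Function.update y b z)) i ↔ gval C.gates (X z) i :=
    fun z i => Iff.rfl
  -- agreement on negative inputs
  have hagree_neg : ∀ z, ¬ T z → ∀ i < C.gates.length, (fr z i ↔ gval C.gates (X z) i) := by
    intro z hz i
    induction i using Nat.strong_induction_on with
    | _ i ih =>
      intro hi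
      have hc' : ∀ k < i, (fr z k ↔ gval C.gates (X z) k) := fun k hk => ih k hk (by omega)
      rw [gval_iff C.gates (X z) i hi]
      rcases hg : C.gates[i] with ⟨u, w⟩ | ⟨u, w⟩ | u
      · rw [hfr]
        simp only
        rw [freeze_and C.gates c (X z) i hi hg]
        exact and_congr (Wire.val_congr hc' u) (Wire.val_congr hc' w)
      · rw [hfr]
        simp only
        rw [freeze_or C.gates c (X z) i hi hg]
        exact or_congr (Wire.val_congr hc' u) (Wire.val_congr hc' w)
      · rw [hfr]
        simp only
        rw [freeze_not C.gates c (X z) i hi hg]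
        have h1 := hsame z hz i hi (by rw [hg]; rfl)
        rw [hreal, gval_iff C.gates (X z) i hi, hg] at h1
        exact h1
  set xw : ℕ → Set E → Prop := fun i z =>
    if h : i < C.gates.length then
      (match C.gates[i] with
        | .not u => c i ∧ u.val (X z) (fr z) i
        | _ => False)
    else False with hxw
  refine hhard (fun k z => fr z k) (slp_freeze hX c)
    (fun o z => (C.out o).val (X z) (fr z) C.size) ?_ xw ?_ ?_ ?_
  · intro o
    exact avail_wire hX C.size (C.out o)
  · intro i hi
    have hi' : i < C.gates.length := hi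
    rcases hg : C.gates[i] with ⟨u, w⟩ | ⟨u, w⟩ | u
    · exact Or.inl (Or.inr ⟨False, fun z => by simp [hxw, hi', hg]⟩)
    · exact Or.inl (Or.inr ⟨False, fun z => by simp [hxw, hi', hg]⟩)
    · by_cases hci : c i
      · have h1 : ∀ z, xw i z ↔ u.val (X z) (fr z) i := fun z => by simp [hxw, hi', hg, hci]
        rcases avail_wire (gs := freeze C.gates c) hX i u with h | ⟨j, hj, h⟩
        · left
          rcases h with ⟨e, he⟩ | ⟨t, ht⟩
          · exact Or.inl ⟨e, fun z => (h1 z).trans (he z)⟩
          · exact Or.inr ⟨t, fun z => (h1 z).trans (ht z)⟩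
        · exact Or.inr ⟨j, by omega, fun z => (h1 z).trans (h z)⟩
      · exact Or.inl (Or.inr ⟨False, fun z => by simp [hxw, hi', hg, hci]⟩)
  · intro z hz
    by_contra hno
    rw [not_or] at hno
    obtain ⟨hacc, hx⟩ := hno
    push Not at hx
    have hop : ∀ i (hi : i < C.gates.length) (u : Wire α), C.gates[i] = .not u → c i →
        ¬ u.val (X z) (fr z) i := by
      intro i hi u hg hci huv
      apply hx i hi
      simp [hxw, hi, hg, hci, huv]
    have hXm : ∀ a, M.X y a → X z a := M.mono_update hb z
    have hagree : ∀ i < C.gates.length, (fr z i ↔ gval C.gates (X z) i) ∧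
        (c i → gval C.gates (X z) i) := by
      intro i
      induction i using Nat.strong_induction_on with
      | _ i ih =>
        intro hi
        have hc' : ∀ k < i, (fr z k ↔ gval C.gates (X z) k) := fun k hk => (ih k hk (by omega)).1
        have hm' : ∀ k < i, c k → gval C.gates (X z) k := fun k hk => (ih k hk (by omega)).2
        have hci : c i ↔ (C.gates[i]).val (M.X y) c i := gval_iff C.gates (M.X y) i hi
        have hgi := gval_iff C.gates (X z) i hi
        rcases hg : C.gates[i] with ⟨u, w⟩ | ⟨u, w⟩ | u
        · rw [hg] at hci hgi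
          have h1 := freeze_and C.gates c (X z) i hi hg
          have hl := Wire.val_congr (x := X z) hc' u
          have hr := Wire.val_congr (x := X z) hc' w
          refine ⟨h1.trans ((and_congr hl hr).trans hgi.symm), fun h => ?_⟩
          have h2 := hci.1 h
          exact hgi.2 ⟨Wire.val_mono hXm hm' u h2.1, Wire.val_mono hXm hm' w h2.2⟩
        · rw [hg] at hci hgi
          have h1 := freeze_or C.gates c (X z) i hi hg
          have hl := Wire.val_congr (x := X z) hc' u
          have hr := Wire.val_congr (x := X z) hc' w
          refine ⟨h1.trans ((or_congr hl hr).trans hgi.symm), fun h => ?_⟩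
          have h2 := hci.1 h
          exact hgi.2 (h2.imp (Wire.val_mono hXm hm' u) (Wire.val_mono hXm hm' w))
        · rw [hg] at hci hgi
          have h1 := freeze_not C.gates c (X z) i hi hg
          have hl := Wire.val_congr (x := X z) hc' u
          by_cases hcv : c i
          · have h2 := hop i hi u hg hcv
            have h3 : gval C.gates (X z) i := hgi.2 (fun h => h2 (hl.2 h))
            exact ⟨⟨fun _ => h3, fun _ => h1.2 hcv⟩, fun _ => h3⟩
          · have h2 : u.val (M.X y) c i := by
              by_contra h
              exact hcv (hci.2 h)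
            have h3 := Wire.val_mono hXm hm' u h2
            refine ⟨⟨fun h => (hcv (h1.1 h)).elim, fun h => ((hgi.1 h) h3).elim⟩,
              fun h => (hcv h).elim⟩
    have hT := (hout (Function.update y b z)).2 ⟨b, by rw [Function.update_self]; exact hz⟩
    apply hacc
    have he : (fun o => (C.out o).val (X z) (fr z) C.size) = C.eval (X z) := by
      funext o
      apply propext
      rw [Circuit.eval_iff]
      exact Wire.val_congr (fun k hk => (hagree k hk).1) _
    rw [he]
    exact hT
  · intro z hz
    refine ⟨fun hacc => ?_, fun i hi hx => ?_⟩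
    · have he : (fun o => (C.out o).val (X z) (fr z) C.size) = C.eval (X z) := by
        funext o
        apply propext
        rw [Circuit.eval_iff]
        exact Wire.val_congr (fun k hk => hagree_neg z hz k hk) _
      rw [he] at hacc
      obtain ⟨i, hi⟩ := (hout (Function.update y b z)).1 hacc
      by_cases hib : i = b
      · subst hib
        rw [Function.update_self] at hi
        exact hz hi
      · rw [Function.update_of_ne hib] at hi
        exact hy i hi
    · have hi' : i < C.gates.length := hi
      rcases hg : C.gates[i] with ⟨u, w⟩ | ⟨u, w⟩ | u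
      · simp [hxw, hi', hg] at hx
      · simp [hxw, hi', hg] at hx
      · simp only [hxw, hi', hg, dif_pos] at hx
        have h1 := hsame z hz i hi' (by rw [hg]; rfl)
        have h2 := h1.1 hx.1
        rw [hreal, gval_iff C.gates (X z) i hi', hg] at h2
        apply h2
        exact (Wire.val_congr (fun k hk => hagree_neg z hz k (by omega)) u).1 hx.2

theorem countP_eq_card (gs : List (Gate α)) :
    gs.countP Gate.isNot =
      ((range gs.length).filter fun i => ∃ g, gs[i]? = some g ∧ g.isNot).card := by
  induction gs using List.reverseRecOn with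
  | nil => simp
  | append_singleton gs g ih =>
    rw [List.countP_append, ih, List.length_append, List.length_singleton, Finset.range_add_one,
      Finset.filter_insert]
    have h1 : ((range gs.length).filter fun i => ∃ g', (gs ++ [g])[i]? = some g' ∧ g'.isNot) =
        ((range gs.length).filter fun i => ∃ g, gs[i]? = some g ∧ g.isNot) := by
      apply Finset.filter_congr
      intro i hi
      rw [mem_range] at hi
      rw [List.getElem?_append_left hi]
    rw [h1]
    have h2 : (∃ g', (gs ++ [g])[gs.length]? = some g' ∧ g'.isNot) ↔ g.isNot := by simp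
    by_cases hg : g.isNot
    · rw [if_pos (h2.2 hg), card_insert_of_notMem (by simp), List.countP_singleton, if_pos hg]
    · rw [if_neg (fun h => hg (h2.1 h)), List.countP_singleton, if_neg hg, Nat.add_zero]

/-- The counting theorem: a circuit which decides (with the acceptance condition `Acc`) whether one
of the blocks is a yes-instance of a hard block problem has at least `log₂ (M + 1)` NOT gates, where
`M` is the number of blocks. -/
theorem chain_count [Fintype ι] {T : Set E → Prop} (hT0 : ¬ T ∅) {Acc : (β → Prop) → Prop}
    (C : Circuit α β) (hhard : Hard T C.size Acc) (M : Emb α ι E)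
    (hout : ∀ y, Acc (C.eval (M.X y)) ↔ ∃ i, T (y i)) :
    Fintype.card ι + 1 ≤ 2 ^ C.nots := by
  -- the chain
  have hstep : ∀ (y : ι → Set E) (b : ι), ∃ z : Set E,
      (∀ i, ¬ T (y i)) → y b = ∅ →
      (¬ T z ∧ ∃ i, ∃ hi : i < C.gates.length, (C.gates[i]).isNot ∧
        ¬ (gval C.gates (M.X y) i ↔ gval C.gates (M.X (Function.update y b z)) i)) := by
    intro y b
    by_cases h : (∀ i, ¬ T (y i)) ∧ y b = ∅
    · obtain ⟨z, hz⟩ := block_step C hhard M hout y h.1 b h.2
      exact ⟨z, fun _ _ => hz⟩
    · exact ⟨∅, fun h1 h2 => (h ⟨h1, h2⟩).elim⟩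
  choose f hf using hstep
  set m := Fintype.card ι with hm
  set e : Fin m ≃ ι := (Fintype.equivFin ι).symm with he
  set Y : ℕ → (ι → Set E) := fun k => Nat.rec (fun _ => ∅)
    (fun k y => if h : k < m then Function.update y (e ⟨k, h⟩) (f y (e ⟨k, h⟩)) else y) k with hY
  have hY0 : Y 0 = fun _ => ∅ := rfl
  have hYs : ∀ k, (h : k < m) → Y (k + 1) =
      Function.update (Y k) (e ⟨k, h⟩) (f (Y k) (e ⟨k, h⟩)) := by
    intro k h
    change (if h : k < m then Function.update (Y k) (e ⟨k, h⟩) (f (Y k) (e ⟨k, h⟩)) else Y k) = _
    rw [dif_pos h]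
  have hinv : ∀ k ≤ m, (∀ i, ¬ T (Y k i)) ∧ ∀ i : Fin m, k ≤ i.val → Y k (e i) = ∅ := by
    intro k
    induction k with
    | zero =>
      intro _
      rw [hY0]
      exact ⟨fun i => hT0, fun _ _ => rfl⟩
    | succ k ih =>
      intro hk
      obtain ⟨h1, h2⟩ := ih (by omega)
      have hk' : k < m := by omega
      rw [hYs k hk']
      refine ⟨fun i => ?_, fun i hi => ?_⟩
      · by_cases hib : i = e ⟨k, hk'⟩
        · subst hib
          rw [Function.update_self]
          exact (hf (Y k) (e ⟨k, hk'⟩) h1 (h2 _ le_rfl)).1
        · rw [Function.update_of_ne hib]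
          exact h1 i
      · rw [Function.update_of_ne]
        · exact h2 i (by omega)
        · intro h
          have := e.injective h
          rw [this] at hi
          simp at hi
  have hdiff : ∀ k, k < m → ∃ i, ∃ hi : i < C.gates.length, (C.gates[i]).isNot ∧
      ¬ (gval C.gates (M.X (Y k)) i ↔ gval C.gates (M.X (Y (k + 1))) i) := by
    intro k hk
    obtain ⟨h1, h2⟩ := hinv k (by omega)
    rw [hYs k hk]
    exact (hf (Y k) (e ⟨k, hk⟩) h1 (h2 _ le_rfl)).2
  have hsucc : ∀ k, k < m → ∀ i, Y k i ⊆ Y (k + 1) i := by
    intro k hk i
    rw [hYs k hk]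
    by_cases hib : i = e ⟨k, hk⟩
    · subst hib
      rw [(hinv k (by omega)).2 ⟨k, hk⟩ le_rfl]
      exact Set.empty_subset _
    · rw [Function.update_of_ne hib]
  have hle : ∀ k k', k ≤ k' → k' ≤ m → ∀ i, Y k i ⊆ Y k' i := by
    intro k k' hkk
    induction k', hkk using Nat.le_induction with
    | base => intro _ i; exact subset_rfl
    | succ k' _ ih =>
      intro hk' i
      exact (ih (by omega) i).trans (hsucc k' (by omega) i)
  -- labels
  set N : Finset ℕ := (range C.gates.length).filter fun i =>
    ∃ g, C.gates[i]? = some g ∧ g.isNot with hN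
  have hNc : N.card = C.nots := by
    rw [hN, Circuit.nots, countP_eq_card]
  set lab : Fin (m + 1) → Finset ℕ := fun k => N.filter fun i => gval C.gates (M.X (Y k.val)) i
    with hlab
  have hinj : Function.Injective lab := by
    have hmain : ∀ k k' : Fin (m + 1), k.val < k'.val → lab k ≠ lab k' := by
      intro k k' hkk heq
      have hk'm : k'.val ≤ m := by have := k'.isLt; omega
      have x1 := M.mono _ _ (hle k.val (k.val + 1) (by omega) (by omega))
      have x2 := M.mono _ _ (hle (k.val + 1) k'.val (by omega) hk'm)
      have hall : ∀ i < C.gates.length,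
          (gval C.gates (M.X (Y k.val)) i → gval C.gates (M.X (Y (k.val + 1))) i) ∧
          (gval C.gates (M.X (Y (k.val + 1))) i → gval C.gates (M.X (Y k'.val)) i) ∧
          ((C.gates[i]?).elim False (fun g => g.isNot = true) →
            (gval C.gates (M.X (Y (k.val + 1))) i → gval C.gates (M.X (Y k.val)) i)) := by
        intro i
        induction i using Nat.strong_induction_on with
        | _ i ih =>
          intro hi
          have m1 : ∀ j < i, gval C.gates (M.X (Y k.val)) j →
              gval C.gates (M.X (Y (k.val + 1))) j := fun j hj => (ih j hj (by omega)).1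
          have m2 : ∀ j < i, gval C.gates (M.X (Y (k.val + 1))) j →
              gval C.gates (M.X (Y k'.val)) j := fun j hj => (ih j hj (by omega)).2.1
          have g0 := gval_iff C.gates (M.X (Y k.val)) i hi
          have g1 := gval_iff C.gates (M.X (Y (k.val + 1))) i hi
          have g2 := gval_iff C.gates (M.X (Y k'.val)) i hi
          rcases hg : C.gates[i] with ⟨u, w⟩ | ⟨u, w⟩ | u
          · rw [hg] at g0 g1 g2
            refine ⟨fun h => ?_, fun h => ?_, ?_⟩
            · have := g0.1 h
              exact g1.2 ⟨Wire.val_mono x1 m1 u this.1, Wire.val_mono x1 m1 w this.2⟩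
            · have := g1.1 h
              exact g2.2 ⟨Wire.val_mono x2 m2 u this.1, Wire.val_mono x2 m2 w this.2⟩
            · rw [List.getElem?_eq_getElem hi, hg]
              intro h
              simp [Gate.isNot] at h
          · rw [hg] at g0 g1 g2
            refine ⟨fun h => ?_, fun h => ?_, ?_⟩
            · have := g0.1 h
              exact g1.2 (this.imp (Wire.val_mono x1 m1 u) (Wire.val_mono x1 m1 w))
            · have := g1.1 h
              exact g2.2 (this.imp (Wire.val_mono x2 m2 u) (Wire.val_mono x2 m2 w))
            · rw [List.getElem?_eq_getElem hi, hg]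
              intro h
              simp [Gate.isNot] at h
          · rw [hg] at g0 g1 g2
            have a1 : gval C.gates (M.X (Y (k.val + 1))) i → gval C.gates (M.X (Y k.val)) i :=
              fun h => g0.2 fun h' => (g1.1 h) (Wire.val_mono x1 m1 u h')
            have a2 : gval C.gates (M.X (Y k'.val)) i → gval C.gates (M.X (Y (k.val + 1))) i :=
              fun h => g1.2 fun h' => (g2.1 h) (Wire.val_mono x2 m2 u h')
            have hiN : i ∈ N := by
              rw [hN, mem_filter, mem_range]
              exact ⟨hi, _, List.getElem?_eq_getElem hi, by rw [hg]; rfl⟩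
            have a3 : gval C.gates (M.X (Y k.val)) i → gval C.gates (M.X (Y k'.val)) i := by
              intro h
              have : i ∈ lab k := mem_filter.2 ⟨hiN, h⟩
              rw [heq] at this
              exact (mem_filter.1 this).2
            exact ⟨fun h => a2 (a3 h), fun h => a3 (a1 h), fun _ => a1⟩
      obtain ⟨i, hi, hn, hne⟩ := hdiff k.val (by omega)
      obtain ⟨b1, -, b3⟩ := hall i hi
      exact hne ⟨b1, b3 (by rw [List.getElem?_eq_getElem hi]; exact hn)⟩
    intro k k' heq
    rcases lt_trichotomy k.val k'.val with h | h | h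
    · exact (hmain k k' h heq).elim
    · exact Fin.ext h
    · exact (hmain k' k h heq.symm).elim
  have hc := card_le_card_of_injOn (s := (univ : Finset (Fin (m + 1)))) (t := N.powerset) lab
    (fun k _ => by
      rw [mem_coe, mem_powerset]
      exact filter_subset _ _) (fun k _ k' _ h => hinj h)
  rw [card_univ, Fintype.card_fin, card_powerset, hNc] at hc
  exact hc

end

end Pool.Agent.T9h75.WH
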