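import Pool.Agent.T9h75.WH.Avoid

set_option autoImplicit false
set_option linter.unusedSectionVars false

namespace Pool.Agent.T9h75.WH

open Finset
open scoped Classical

section
variable {D V : Type} [Fintype D] [Fintype V] [DecidableEq D]

/-- `θ` meets all sets of literals `θ j = v` of the family, but there is no set of at most `b`
positions on which it already does. -/
def Bad (𝒢 : Set (Finset (D × V))) (b : ℕ) (θ : D → V) : Prop :=
  (∀ G ∈ 𝒢, ∃ p ∈ G, θ p.1 = p.2) ∧
    ∀ Y : Finset D, Y.card ≤ b → ∃ G ∈ 𝒢, ∀ p ∈ G, p.1 ∈ Y → θ p.1 ≠ p.2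

/-- Many members with disjoint positions, or a small set of positions meeting all members. -/
theorem disjoint_or_cover (𝒢 : Set (Finset (D × V))) (c : ℕ) (hc : ∀ G ∈ 𝒢, G.card ≤ c) (M : ℕ) :
    (∃ f : ℕ → Finset (D × V), (∀ i < M, f i ∈ 𝒢) ∧
      ∀ i < M, ∀ i' < i, Disjoint ((f i').image Prod.fst) ((f i).image Prod.fst)) ∨
    ∃ J : Finset D, J.card ≤ M * c ∧ ∀ G ∈ 𝒢, ∃ p ∈ G, p.1 ∈ J := by
  induction M with
  | zero => exact Or.inl ⟨fun _ => ∅, fun i hi => by omega, fun i hi => by omega⟩
  | succ M ih =>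
    rcases ih with ⟨f, hf, hd⟩ | ⟨J, hJ, hJG⟩
    · set J : Finset D := (range M).biUnion fun i => (f i).image Prod.fst with hJdef
      have hJc : J.card ≤ M * c := by
        refine card_biUnion_le.trans ?_
        calc ∑ i ∈ range M, ((f i).image Prod.fst).card ≤ ∑ _i ∈ range M, c := by
              apply sum_le_sum
              intro i hi
              exact card_image_le.trans (hc _ (hf i (mem_range.1 hi)))
          _ = M * c := by rw [sum_const, card_range, smul_eq_mul]
      by_cases h : ∀ G ∈ 𝒢, ∃ p ∈ G, p.1 ∈ J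
      · exact Or.inr ⟨J, hJc.trans (Nat.mul_le_mul_right _ (Nat.le_succ _)), h⟩
      · push Not at h
        obtain ⟨G, hG, hGJ⟩ := h
        refine Or.inl ⟨fun i => if i = M then G else f i, ?_, ?_⟩
        · intro i hi
          by_cases hiM : i = M
          · simp [hiM, hG]
          · simp only [hiM, if_false]
            exact hf i (by omega)
        · intro i hi i' hi'
          have hi'M : i' ≠ M := by omega
          by_cases hiM : i = M
          · subst hiM
            simp only [if_true, hi'M, if_false]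
            rw [disjoint_left]
            intro j hj hj'
            rw [mem_image] at hj'
            obtain ⟨p, hp, rfl⟩ := hj'
            apply hGJ p hp
            rw [hJdef, mem_biUnion]
            exact ⟨i', mem_range.2 hi', hj⟩
          · simp only [hiM, if_false, hi'M]
            exact hd i (by omega) i' hi'
    · exact Or.inr ⟨J, hJ.trans (Nat.mul_le_mul_right _ (Nat.le_succ _)), hJG⟩

theorem cols_aux (a c₀ M : ℕ) (ha : Fintype.card V ^ c₀ ≤ a) (hV : 1 ≤ Fintype.card V) :
    ∀ c ≤ c₀, ∀ (J₀ : Finset D) (θ₀ : D → V) (𝒢 : Set (Finset (D × V))),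
      (∀ G ∈ 𝒢, G.card ≤ c) → (∀ G ∈ 𝒢, ∃ τ : D → V, ∀ p ∈ G, τ p.1 ≠ p.2) →
      (∀ G ∈ 𝒢, ∀ p ∈ G, p.1 ∉ J₀) →
      ((univ.filter fun θ : D → V => ∀ j ∈ J₀, θ j = θ₀ j).filter (Bad 𝒢 (M * c ^ 2))).card * a ^ M
        ≤ (a - 1) ^ M * (univ.filter fun θ : D → V => ∀ j ∈ J₀, θ j = θ₀ j).card := by
  intro c
  induction c with
  | zero =>
    intro _ J₀ θ₀ 𝒢 hc _ _
    have : (univ.filter fun θ : D → V => ∀ j ∈ J₀, θ j = θ₀ j).filter (Bad 𝒢 (M * 0 ^ 2)) = ∅ := by
      rw [filter_eq_empty_iff]
      rintro θ - ⟨h1, h2⟩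
      obtain ⟨G, hG, -⟩ := h2 ∅ (by simp)
      obtain ⟨p, hp, -⟩ := h1 G hG
      have := hc G hG
      rw [Nat.le_zero, card_eq_zero] at this
      rw [this] at hp
      simp at hp
    rw [this]
    simp
  | succ c ih =>
    intro hcc J₀ θ₀ 𝒢 hc hτ hJ₀
    set S := univ.filter fun θ : D → V => ∀ j ∈ J₀, θ j = θ₀ j with hS
    rcases disjoint_or_cover 𝒢 (c + 1) hc M with ⟨f, hf, hd⟩ | ⟨J, hJ, hJG⟩
    · -- many disjoint members
      have : Nonempty (D → V) := ⟨θ₀⟩
      choose! τ hτ using hτ
      set Jf : ℕ → Finset D := fun i => if i < M then (f i).image Prod.fst else ∅ with hJf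
      have hJfc : ∀ i, Fintype.card V ^ (Jf i).card ≤ a := by
        intro i
        refine le_trans (Nat.pow_le_pow_right hV ?_) ha
        by_cases hi : i < M
        · simp only [hJf, hi, if_true]
          exact card_image_le.trans ((hc _ (hf i hi)).trans hcc)
        · simp [hJf, hi]
      have hcl : ∀ i, ∀ u ∈ S, ow (Jf i) (τ (f i)) u ∈ S := by
        intro i u hu
        rw [hS, mem_filter] at hu ⊢
        refine ⟨mem_univ _, fun j hj => ?_⟩
        rw [ow_notMem, hu.2 j hj]
        by_cases hi : i < M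
        · simp only [hJf, hi, if_true]
          intro hj'
          rw [mem_image] at hj'
          obtain ⟨p, hp, rfl⟩ := hj'
          exact hJ₀ _ (hf i hi) p hp hj
        · simp [hJf, hi]
      have hmany := avoid_many S Jf (fun i => τ (f i)) a hJfc hcl M (by
        intro i hi i' hi'
        have hi'M : i' < M := by omega
        simp only [hJf, hi, hi'M, if_true]
        exact hd i hi i' hi')
      refine le_trans (Nat.mul_le_mul_right _ (card_le_card ?_)) hmany
      intro θ hθ
      rw [mem_filter] at hθ ⊢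
      refine ⟨hθ.1, fun i hi => ?_⟩
      obtain ⟨p, hp, hθp⟩ := hθ.2.1 (f i) (hf i hi)
      refine ⟨p.1, ?_, ?_⟩
      · simp only [hJf, hi, if_true]
        exact mem_image_of_mem _ hp
      · rw [hθp]
        exact (hτ _ (hf i hi) p hp).symm
    · -- a small set of positions
      set J₁ := J₀ ∪ J with hJ₁
      set r : (D → V) → (D → V) := fun θ j => if j ∈ J₁ then θ j else θ₀ j with hr
      have hsum1 := card_eq_sum_card_image r (S.filter (Bad 𝒢 (M * (c + 1) ^ 2)))
      have hsum2 := card_eq_sum_card_image r S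
      have himg : (S.filter (Bad 𝒢 (M * (c + 1) ^ 2))).image r ⊆ S.image r :=
        image_subset_image (filter_subset _ _)
      have hfib : ∀ θ₁ ∈ S.image r,
          ((S.filter (Bad 𝒢 (M * (c + 1) ^ 2))).filter fun θ => r θ = θ₁).card * a ^ M ≤
            (a - 1) ^ M * (S.filter fun θ => r θ = θ₁).card := by
        intro θ₁ hθ₁
        rw [mem_image] at hθ₁
        obtain ⟨θ', hθ', rfl⟩ := hθ₁
        set 𝒢' : Set (Finset (D × V)) := {G' | ∃ G ∈ 𝒢, (∀ p ∈ G, p.1 ∈ J → θ' p.1 ≠ p.2) ∧
          G' = G.filter fun p => p.1 ∉ J} with h𝒢'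
        have hih := ih (by omega) J₁ (r θ') 𝒢' (by
            rintro G' ⟨G, hG, -, rfl⟩
            obtain ⟨p, hp, hpJ⟩ := hJG G hG
            have h1 : (G.filter fun p => p.1 ∉ J).card < G.card := by
              apply card_lt_card
              rw [filter_ssubset]
              exact ⟨p, hp, by simpa using hpJ⟩
            have h2 := hc G hG
            omega)
          (by
            rintro G' ⟨G, hG, -, rfl⟩
            obtain ⟨τ, hτG⟩ := hτ G hG
            exact ⟨τ, fun p hp => hτG p (mem_filter.1 hp).1⟩)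
          (by
            rintro G' ⟨G, hG, -, rfl⟩ p hp
            rw [mem_filter] at hp
            rw [hJ₁, mem_union, not_or]
            exact ⟨hJ₀ G hG p hp.1, hp.2⟩)
        have hrθ' : ∀ j ∈ J₁, r θ' j = θ' j := fun j hj => by simp [hr, hj]
        rw [hS, mem_filter] at hθ'
        refine le_trans (Nat.mul_le_mul_right _ (card_le_card ?_))
          (hih.trans (Nat.mul_le_mul_left _ (card_le_card ?_)))
        · intro θ hθ
          rw [mem_filter, mem_filter] at hθ
          obtain ⟨⟨hθS, hbad⟩, hθr⟩ := hθ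
          have hagree : ∀ j ∈ J₁, θ j = r θ' j := by
            intro j hj
            have := congrFun hθr j
            simp only [hr, hj, if_true] at this ⊢
            exact this
          rw [mem_filter, mem_filter]
          refine ⟨⟨mem_univ _, hagree⟩, ?_, ?_⟩
          · rintro G' ⟨G, hG, hGJ, rfl⟩
            obtain ⟨p, hp, hθp⟩ := hbad.1 G hG
            refine ⟨p, ?_, hθp⟩
            rw [mem_filter]
            refine ⟨hp, fun hpJ => ?_⟩
            have hpJ₁ : p.1 ∈ J₁ := by rw [hJ₁, mem_union]; exact Or.inr hpJ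
            apply hGJ p hp hpJ
            rw [← hrθ' _ hpJ₁, ← hagree _ hpJ₁]
            exact hθp
          · intro Y' hY'
            obtain ⟨G, hG, hGY⟩ := hbad.2 (J ∪ Y') (by
              refine (card_union_le _ _).trans ?_
              nlinarith)
            refine ⟨_, ⟨G, hG, ?_, rfl⟩, ?_⟩
            · intro p hp hpJ
              have hpJ₁ : p.1 ∈ J₁ := by rw [hJ₁, mem_union]; exact Or.inr hpJ
              have := hGY p hp (mem_union_left _ hpJ)
              rwa [hagree _ hpJ₁, hrθ' _ hpJ₁] at this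
            · intro p hp hpY
              exact hGY p (mem_filter.1 hp).1 (mem_union_right _ hpY)
        · intro θ hθ
          rw [mem_filter] at hθ
          rw [mem_filter, hS, mem_filter]
          refine ⟨⟨mem_univ _, fun j hj => ?_⟩, ?_⟩
          · have hjJ₁ : j ∈ J₁ := by rw [hJ₁, mem_union]; exact Or.inl hj
            rw [hθ.2 j hjJ₁, hrθ' j hjJ₁]
            exact hθ'.2 j hj
          · funext j
            by_cases hj : j ∈ J₁
            · simp only [hr, hj, if_true]
              rw [hθ.2 j hj, hrθ' j hj]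
            · simp [hr, hj]
      calc (S.filter (Bad 𝒢 (M * (c + 1) ^ 2))).card * a ^ M
          = (∑ θ₁ ∈ (S.filter (Bad 𝒢 (M * (c + 1) ^ 2))).image r,
              ((S.filter (Bad 𝒢 (M * (c + 1) ^ 2))).filter fun θ => r θ = θ₁).card) * a ^ M := by
            rw [hsum1]
        _ ≤ (∑ θ₁ ∈ S.image r,
              ((S.filter (Bad 𝒢 (M * (c + 1) ^ 2))).filter fun θ => r θ = θ₁).card) * a ^ M := by
            apply Nat.mul_le_mul_right
            exact sum_le_sum_of_subset himg
        _ = ∑ θ₁ ∈ S.image r,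
              ((S.filter (Bad 𝒢 (M * (c + 1) ^ 2))).filter fun θ => r θ = θ₁).card * a ^ M := by
            rw [sum_mul]
        _ ≤ ∑ θ₁ ∈ S.image r, (a - 1) ^ M * (S.filter fun θ => r θ = θ₁).card :=
            sum_le_sum hfib
        _ = (a - 1) ^ M * S.card := by rw [← mul_sum, ← hsum2]

/-- **Column lemma.** For every family of sets of at most `c` literals `θ j = v`, each of which
can be avoided, only few functions `θ` meet all members of the family without meeting all of
them on at most `M c ^ 2` positions. -/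
theorem cols (a c M : ℕ) (ha : Fintype.card V ^ c ≤ a) (hV : 1 ≤ Fintype.card V)
    (𝒢 : Set (Finset (D × V))) (hc : ∀ G ∈ 𝒢, G.card ≤ c)
    (hτ : ∀ G ∈ 𝒢, ∃ τ : D → V, ∀ p ∈ G, τ p.1 ≠ p.2) :
    (univ.filter (Bad 𝒢 (M * c ^ 2))).card * a ^ M ≤ (a - 1) ^ M * Fintype.card (D → V) := by
  rcases isEmpty_or_nonempty (D → V) with hE | ⟨⟨θ₀⟩⟩
  · have : (univ.filter (Bad 𝒢 (M * c ^ 2))) = ∅ := by
      ext θ
      exact (hE.false θ).elim
    rw [this]
    simp
  · have := cols_aux (D := D) a c M ha hV c le_rfl ∅ θ₀ 𝒢 hc hτ (by simp)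
    simpa using this

end

end Pool.Agent.T9h75.WH
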