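import Pool.Agent.T9h75.WH.Model

/-!
# Reductions from p-Dominating Set to p-Clique computed by circuits
-/

set_option autoImplicit false

namespace Pool.Agent.T9h75.WH

/-- `G` has a dominating set with at most `k` vertices. -/
def HasDomSet {V : Type} (G : SimpleGraph V) (k : ℕ) : Prop :=
  ∃ S : Finset V, S.card ≤ k ∧ ∀ v, v ∈ S ∨ ∃ u ∈ S, G.Adj u v

/-- The input of a circuit given by a graph on `n` vertices: the variable `(a, b)` tells whether
`a` and `b` are adjacent. -/
def edgeInput {n : ℕ} (G : SimpleGraph (Fin n)) : Fin n × Fin n → Prop := fun p => G.Adj p.1 p.2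

/-- The graph on `N` vertices given by the outputs of a circuit: for `a < b`, the output `(a, b)`
tells whether `a` and `b` are adjacent. -/
def outGraph {N : ℕ} (r : Fin N × Fin N → Prop) : SimpleGraph (Fin N) where
  Adj a b := (a < b ∧ r (a, b)) ∨ (b < a ∧ r (b, a))
  symm := ⟨fun _ _ h => Or.symm h⟩
  loopless := ⟨fun a h => h.elim (fun h => lt_irrefl a h.1) fun h => lt_irrefl a h.1⟩

/-- On graphs with `n` vertices, the circuit `C` computes a reduction from the dominating set
problem with parameter `k` to the clique problem with parameter `g`. -/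
def Reduces {n N : ℕ} (C : Circuit (Fin n × Fin n) (Fin N × Fin N)) (k g : ℕ) : Prop :=
  ∀ G : SimpleGraph (Fin n),
    HasDomSet G k ↔ ∃ S : Finset (Fin N), (outGraph (C.eval (edgeInput G))).IsNClique g S

end Pool.Agent.T9h75.WH
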