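import Pool.Agent.T9h75.WH.Hard

set_option autoImplicit false

namespace Pool.Agent.T9h75.WH

open Finset Pool.Agent.T9h16
open scoped Classical

theorem poly_le_exp (D p : ℕ) : ∃ L₀, ∀ L ≥ L₀, D * (L + 1) ^ p ≤ 2 ^ (L - 1) := by
  have h := tendsto_pow_const_div_const_pow_of_one_lt p (r := (2 : ℝ)) (by norm_num)
  have hε : (0 : ℝ) < 1 / (4 * (D + 1)) := by positivity
  have h2 := (h.eventually (gt_mem_nhds hε))
  rw [Filter.eventually_atTop] at h2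
  obtain ⟨N, hN⟩ := h2
  refine ⟨N + 1, fun L hL => ?_⟩
  have h3 := hN (L + 1) (by omega)
  rw [div_lt_div_iff₀ (by positivity) (by positivity)] at h3
  have h4 : (2 : ℝ) ^ (L + 1) = 4 * 2 ^ (L - 1) := by
    obtain ⟨l, rfl⟩ : ∃ l, L = l + 1 := ⟨L - 1, by omega⟩
    rw [Nat.add_sub_cancel]
    ring
  rw [h4] at h3
  have h5 : ((D * (L + 1) ^ p : ℕ) : ℝ) ≤ ((2 ^ (L - 1) : ℕ) : ℝ) := by
    push_cast
    push_cast at h3
    have h6 : (0 : ℝ) ≤ ((L : ℝ) + 1) ^ p := by positivity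
    nlinarith
  exact_mod_cast h5

theorem asym (α β p C : ℕ) : ∃ A₀, ∀ A ≥ A₀, C * (α + β * Nat.clog 2 (A + 1)) ^ p ≤ A := by
  obtain ⟨L₀, hL₀⟩ := poly_le_exp (C * (α + β) ^ p) p
  refine ⟨2 ^ L₀, fun A hA => ?_⟩
  set L := Nat.clog 2 (A + 1) with hL
  have h1 : L₀ ≤ L := by
    rw [hL, ← Nat.clog_pow 2 L₀ (by norm_num)]
    exact Nat.clog_mono_right 2 (by omega)
  have h2 : 2 ^ (L - 1) ≤ A := by
    have hA1 : 1 < A + 1 := by
      have : 0 < 2 ^ L₀ := by positivity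
      omega
    have := Nat.pow_pred_clog_lt_self (b := 2) (by norm_num) hA1
    rw [← hL] at this
    have h3 : L.pred = L - 1 := rfl
    rw [h3] at this
    exact Nat.lt_succ_iff.1 this
  refine le_trans ?_ ((hL₀ L h1).trans h2)
  rw [mul_assoc, ← mul_pow]
  apply Nat.mul_le_mul_left
  apply Nat.pow_le_pow_left
  nlinarith [Nat.zero_le α, Nat.zero_le β, Nat.zero_le L, Nat.zero_le (α * L), Nat.zero_le (β * L)]

theorem two_mul_le_two_pow (k : ℕ) (hk : 1 ≤ k) : 2 * k ≤ 2 ^ k := by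
  obtain ⟨k', rfl⟩ : ∃ k', k = k' + 1 := ⟨k - 1, by omega⟩
  have := Nat.lt_two_pow_self (n := k')
  rw [pow_succ]
  omega

/-- The monotone lower bound for the block function with `q` rows in every group and `q` columns:
a family of conjunctions of `h` outputs of a monotone straight-line program with fewer than
`q ^ k / K` gates does not have the block function as its disjunction. -/
theorem hard (k h : ℕ) (hk : 1 ≤ k) : ∃ K, ∀ q ≥ K, ∀ s, K * s ≤ q ^ k →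
    ∀ gt : ℕ → Set (BV k q q) → Prop, IsSLP gt s →
    ∀ O : Set (Fin h → Set (BV k q q) → Prop), (∀ o ∈ O, ∀ i, Avail gt s (o i)) →
    (∀ z, HS z → ∃ o ∈ O, ∀ i, o i z) → (∀ z, ¬ HS z → ∀ o ∈ O, ∃ i, ¬ o i z) → False := by
  obtain ⟨c, hc⟩ : ∃ c, c = 2 * k ^ 2 + 1 := ⟨_, rfl⟩
  obtain ⟨a, ha⟩ : ∃ a, a = k ^ c := ⟨_, rfl⟩
  have hc1 : 1 ≤ c := by omega
  have ha1 : 1 ≤ a := by rw [ha]; exact Nat.pow_pos hk
  obtain ⟨A₁, hA₁⟩ := asym 2 (2 * k ^ 2) 1 1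
  obtain ⟨A₂, hA₂⟩ := asym k (2 * k ^ 2) 1 (4 * h * a * c ^ 2)
  obtain ⟨A₃, hA₃⟩ := asym k (2 * k ^ 2) (c + 1) (4 * 2 ^ (2 * k ^ 2) * (a * c ^ 2) ^ (c + 1))
  obtain ⟨A₀, hA₀⟩ : ∃ A₀, A₀ = A₁ + A₂ + A₃ + 1 := ⟨_, rfl⟩
  refine ⟨A₀ ^ (2 * k) + 2 * c ^ k + 1, fun q hq s hs gt hg O hO hpos hneg => ?_⟩
  have h2k : 2 * k ≠ 0 := by omega
  have hA₀1 : 1 ≤ A₀ := by omega
  have hq0 : A₀ ^ (2 * k) ≤ q := by omega
  have hq1 : 1 ≤ q := by omega
  have hA₀q : A₀ ≤ q := (Nat.le_self_pow h2k A₀).trans hq0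
  obtain ⟨A, hAdef⟩ : ∃ A, A = Nat.findGreatest (fun A => A ^ (2 * k) ≤ q) q := ⟨_, rfl⟩
  have hAA₀ : A₀ ≤ A := by
    rw [hAdef]
    exact Nat.le_findGreatest hA₀q hq0
  have hA1 : 1 ≤ A := hA₀1.trans hAA₀
  have hAq : A ^ (2 * k) ≤ q := by
    have := Nat.findGreatest_spec (P := fun A => A ^ (2 * k) ≤ q) hA₀q hq0
    rw [← hAdef] at this
    exact this
  have hqA : q < (A + 1) ^ (2 * k) := by
    by_cases hlt : A + 1 ≤ q
    · have := Nat.findGreatest_is_greatest (P := fun A => A ^ (2 * k) ≤ q) (n := q) (k := A + 1)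
        (by rw [← hAdef]; omega) hlt
      simpa using this
    · have := Nat.le_self_pow h2k (A + 1)
      omega
  obtain ⟨L, hL⟩ : ∃ L, L = Nat.clog 2 (A + 1) := ⟨_, rfl⟩
  have hAL : A + 1 ≤ 2 ^ L := by
    rw [hL]
    exact Nat.le_pow_clog (by norm_num) _
  have e1 := hA₁ A (by omega)
  have e2 := hA₂ A (by omega)
  have e3 := hA₃ A (by omega)
  rw [← hL] at e1 e2 e3
  have hqk1 : q ^ k ≤ (A + 1) ^ (2 * k ^ 2) := by
    calc q ^ k ≤ ((A + 1) ^ (2 * k)) ^ k := Nat.pow_le_pow_left hqA.le _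
      _ = _ := by rw [← pow_mul]; congr 1; ring
  have hqk2 : q ^ k ≤ 2 ^ (2 * k ^ 2 * L) := by
    refine hqk1.trans ((Nat.pow_le_pow_left hAL _).trans (le_of_eq ?_))
    rw [← pow_mul]
    congr 1
    ring
  have hqk3 : q ^ k ≤ 2 ^ (2 * k ^ 2) * A ^ (2 * k ^ 2) := by
    refine hqk1.trans ?_
    rw [← mul_pow]
    exact Nat.pow_le_pow_left (by omega) _
  have hs1 : s ≤ q ^ k := le_trans (Nat.le_mul_of_pos_left _ (by omega)) hs
  obtain ⟨r, hr⟩ : ∃ r, r = k + 2 * k ^ 2 * L := ⟨_, rfl⟩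
  refine hard_gen (A := A) (c := c) (a := a) (M := a * r) (s := s) (h := h) hk hq1 hA1 hc1
    (Nat.mul_pos ha1 (by omega)) ha ?_ ?_ ?_ ?_ ?_ gt hg O hO hpos hneg
  · -- few negative tests are accepted
    refine card_HS_four (L := 2 + 2 * k ^ 2 * L) hA1 ?_ ?_
    · calc A ^ k * (2 + 2 * k ^ 2 * L) ≤ A ^ k * A := by
            apply Nat.mul_le_mul_left
            simpa using e1
        _ ≤ A ^ k * A ^ k := Nat.mul_le_mul_left _ (Nat.le_self_pow (by omega) A)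
        _ = A ^ (2 * k) := by rw [← pow_add]; congr 1; ring
        _ ≤ q := hAq
    · rw [pow_add, mul_comm]
      exact Nat.mul_le_mul_left _ hqk2
  · calc 4 * (h * (a * r * c ^ 2)) = (4 * h * a * c ^ 2) * (k + 2 * k ^ 2 * L) ^ 1 := by
          rw [hr]; ring
      _ ≤ A := e2
  · calc 4 * (s * (a * r * c ^ 2) ^ (c + 1))
        ≤ 4 * ((2 ^ (2 * k ^ 2) * A ^ (2 * k ^ 2)) * (a * r * c ^ 2) ^ (c + 1)) :=
          Nat.mul_le_mul_left _ (Nat.mul_le_mul_right _ (hs1.trans hqk3))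
      _ = A ^ (2 * k ^ 2) *
          ((4 * 2 ^ (2 * k ^ 2) * (a * c ^ 2) ^ (c + 1)) * (k + 2 * k ^ 2 * L) ^ (c + 1)) := by
          rw [← hr]
          have : a * r * c ^ 2 = (a * c ^ 2) * r := by ring
          rw [this, mul_pow (a * c ^ 2) r]
          ring
      _ ≤ A ^ (2 * k ^ 2) * A := Nat.mul_le_mul_left _ e3
      _ ≤ A ^ (2 * k ^ 2) * A ^ 2 := Nat.mul_le_mul_left _ (Nat.le_self_pow (by norm_num) A)
      _ = A ^ (c + 1) := by rw [← pow_add, hc]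
  · have hq0k : 0 < q ^ k := Nat.pow_pos hq1
    rcases Nat.eq_zero_or_pos s with rfl | hs0
    · simpa using hq0k
    · calc 2 * (s * c ^ k) = (2 * c ^ k) * s := by ring
        _ < (A₀ ^ (2 * k) + 2 * c ^ k + 1) * s :=
            Nat.mul_lt_mul_of_pos_right (by omega) hs0
        _ ≤ q ^ k := hs
  · have h2sk : 2 * (s * k) ≤ 2 ^ r := by
      calc 2 * (s * k) = (2 * k) * s := by ring
        _ ≤ 2 ^ k * 2 ^ (2 * k ^ 2 * L) :=
            Nat.mul_le_mul (two_mul_le_two_pow k hk) (hs1.trans hqk2)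
        _ = 2 ^ r := by rw [← pow_add, hr]
    calc 2 * (s * k) * (a - 1) ^ (a * r) ≤ 2 ^ r * (a - 1) ^ (a * r) := Nat.mul_le_mul_right _ h2sk
      _ = ((a - 1) ^ a * 2) ^ r := by rw [mul_pow, pow_mul]; ring
      _ ≤ (a ^ a) ^ r := Nat.pow_le_pow_left (two_mul_pow_le a ha1) _
      _ = a ^ (a * r) := by rw [← pow_mul]

end Pool.Agent.T9h75.WH
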