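import Pool.Agent.T9h75.WH.DomDefs
import Pool.Agent.T9h75.WH.Param
import Pool.Agent.T9h75.WH.Chain

set_option autoImplicit false
set_option linter.unusedSectionVars false

namespace Pool.Agent.T9h75.WH

open Finset Pool.Agent.T9h16
open scoped Classical

/-- The vertices of the dominating set instance: rows, columns, group vertices and padding. -/
abbrev UV (k q d : ℕ) : Type := (Fin k × Fin q) ⊕ (Fin q ⊕ ((Fin k × Fin (k + 1)) ⊕ Fin d))

section
variable {k q d : ℕ}

/-- Adjacencies between a row and another vertex. -/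
def incR (z : Set (BV k q q)) (a : Fin k × Fin q) :
    Fin q ⊕ ((Fin k × Fin (k + 1)) ⊕ Fin d) → Prop
  | .inl j => (a.1, a.2, j) ∈ z
  | .inr (.inl b) => a.1 = b.1
  | .inr (.inr _) => True

/-- The adjacencies of the instance. -/
def adjU (z : Set (BV k q q)) : UV k q d → UV k q d → Prop
  | .inl a, .inl b => a ≠ b
  | .inl a, .inr u => incR z a u
  | .inr u, .inl a => incR z a u
  | .inr _, .inr _ => False

/-- The instance as a graph. -/
def graphU (z : Set (BV k q q)) : SimpleGraph (UV k q d) where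
  Adj := adjU z
  symm := ⟨by
    rintro (a | u) (b | v) h
    · exact Ne.symm h
    · exact h
    · exact h
    · exact h⟩
  loopless := ⟨by
    rintro (a | u) h
    · exact h rfl
    · exact h⟩

theorem domSet_graphU (hk : 1 ≤ k) (z : Set (BV k q q)) :
    HasDomSet (graphU (d := d) z) k ↔ HS z := by
  constructor
  · rintro ⟨S, hS, hdom⟩
    -- a row of every group
    have hrow : ∀ x : Fin k, ∃ i, (Sum.inl (x, i) : UV k q d) ∈ S := by
      intro x
      by_contra hno
      push Not at hno
      have hall : ∀ c : Fin (k + 1), (Sum.inr (Sum.inr (Sum.inl (x, c))) : UV k q d) ∈ S := by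
        intro c
        rcases hdom (Sum.inr (Sum.inr (Sum.inl (x, c)))) with h | ⟨u, hu, h⟩
        · exact h
        · exfalso
          rcases u with ⟨x', i⟩ | u
          · have h' : x' = x := h
            subst h'
            exact hno i hu
          · exact h
      have hle : Fintype.card (Fin (k + 1)) ≤ S.card := by
        rw [← card_univ]
        apply card_le_card_of_injOn
          (fun c : Fin (k + 1) => (Sum.inr (Sum.inr (Sum.inl (x, c))) : UV k q d))
        · intro c _
          exact hall c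
        · intro c _ c' _ h
          simpa using h
      rw [Fintype.card_fin] at hle
      omega
    choose φ hφ using hrow
    refine ⟨φ, fun j => ?_⟩
    set R : Finset (UV k q d) := univ.image fun x : Fin k => Sum.inl (x, φ x) with hR
    have hRS : R ⊆ S := by
      intro u hu
      rw [hR, mem_image] at hu
      obtain ⟨x, -, rfl⟩ := hu
      exact hφ x
    have hRc : R.card = k := by
      rw [hR, card_image_of_injective, card_univ, Fintype.card_fin]
      intro x y h
      simp only [Sum.inl.injEq, Prod.mk.injEq] at h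
      exact h.1
    have hRSeq : R = S := eq_of_subset_of_card_le hRS (by omega)
    rcases hdom (Sum.inr (Sum.inl j)) with h | ⟨u, hu, h⟩
    · rw [← hRSeq, hR, mem_image] at h
      obtain ⟨x, -, hx⟩ := h
      exact (Sum.inl_ne_inr hx).elim
    · rw [← hRSeq, hR, mem_image] at hu
      obtain ⟨x, -, rfl⟩ := hu
      exact ⟨x, h⟩
  · rintro ⟨φ, hφ⟩
    refine ⟨univ.image fun x : Fin k => Sum.inl (x, φ x), ?_, ?_⟩
    · refine card_image_le.trans ?_
      rw [card_univ, Fintype.card_fin]
    · have hmem : ∀ x : Fin k, (Sum.inl (x, φ x) : UV k q d) ∈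
          univ.image fun x : Fin k => (Sum.inl (x, φ x) : UV k q d) :=
        fun x => mem_image_of_mem _ (mem_univ x)
      rintro (a | j | ⟨x, c⟩ | c)
      · by_cases ha : a = (⟨0, hk⟩, φ ⟨0, hk⟩)
        · left
          rw [ha]
          exact hmem _
        · right
          exact ⟨_, hmem ⟨0, hk⟩, Ne.symm ha⟩
      · right
        obtain ⟨x, hx⟩ := hφ j
        exact ⟨_, hmem x, hx⟩
      · right
        exact ⟨_, hmem x, rfl⟩
      · right
        exact ⟨_, hmem ⟨0, hk⟩, trivial⟩

theorem graphU_mono {z z' : Set (BV k q q)} (h : z ⊆ z') (a b : UV k q d)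
    (hab : (graphU z).Adj a b) : (graphU z').Adj a b := by
  rcases a with a | j | b' | c <;> rcases b with b | j' | b'' | c'
  all_goals first
    | exact hab
    | exact h hab

theorem graphU_leaf (a b : UV k q d) : (∃ t : Prop, ∀ z, (graphU z).Adj a b ↔ t) ∨
    ∃ e, ∀ z : Set (BV k q q), (graphU z).Adj a b ↔ e ∈ z := by
  rcases a with a | j | b' | c <;> rcases b with b | j' | b'' | c'
  all_goals first
    | exact Or.inl ⟨_, fun z => Iff.rfl⟩
    | exact Or.inr ⟨_, fun z => Iff.rfl⟩

end

theorem hasDomSet_comap {V W : Type} (e : V ≃ W) (G : SimpleGraph V) (k : ℕ) :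
    HasDomSet (G.comap e.symm) k ↔ HasDomSet G k := by
  constructor
  · rintro ⟨S, hS, h⟩
    refine ⟨S.map e.symm.toEmbedding, by rw [card_map]; exact hS, fun v => ?_⟩
    rcases h (e v) with h | ⟨u, hu, h⟩
    · left
      rw [mem_map]
      exact ⟨e v, h, by simp⟩
    · right
      refine ⟨e.symm u, ?_, ?_⟩
      · rw [mem_map]
        exact ⟨u, hu, rfl⟩
      · rw [SimpleGraph.comap_adj, Equiv.symm_apply_apply] at h
        exact h
  · rintro ⟨S, hS, h⟩
    refine ⟨S.map e.toEmbedding, by rw [card_map]; exact hS, fun w => ?_⟩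
    rcases h (e.symm w) with h | ⟨u, hu, h⟩
    · left
      rw [mem_map]
      exact ⟨e.symm w, h, by simp⟩
    · right
      refine ⟨e u, ?_, ?_⟩
      · rw [mem_map]
        exact ⟨u, hu, rfl⟩
      · rw [SimpleGraph.comap_adj, Equiv.symm_apply_apply]
        exact h

theorem card_UV (k q d : ℕ) : Fintype.card (UV k q d) = k * q + (q + (k * (k + 1) + d)) := by
  simp only [Fintype.card_sum, Fintype.card_prod, Fintype.card_fin]

/-- Writing one block into the dominating set problem. -/
noncomputable def embU {k q d n : ℕ} (e : UV k q d ≃ Fin n) : Emb (Fin n × Fin n) Unit (BV k q q) where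
  X := fun y => edgeInput ((graphU (y ())).comap e.symm)
  mono := by
    intro y y' h a ha
    exact graphU_mono (h ()) _ _ ha
  leaf := by
    intro a
    rcases graphU_leaf (e.symm a.1) (e.symm a.2) with ⟨t, ht⟩ | ⟨b, hb⟩
    · exact Or.inl ⟨t, fun y => ht _⟩
    · exact Or.inr ⟨(), b, fun y => hb _⟩

/-- The existence of a clique as a disjunction of conjunctions of outputs. -/
theorem clique_iff {N g : ℕ} (r : Fin N × Fin N → Prop) :
    (∃ S : Finset (Fin N), (outGraph r).IsNClique g S) ↔
      ∃ ψ : Fin g → Fin N, StrictMono ψ ∧ ∀ a b, a < b → r (ψ a, ψ b) := by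
  constructor
  · rintro ⟨S, hS⟩
    have hc := hS.card_eq
    refine ⟨S.orderEmbOfFin hc, (S.orderEmbOfFin hc).strictMono, fun a b hab => ?_⟩
    have hlt := (S.orderEmbOfFin hc).strictMono hab
    have hadj := hS.isClique (S.orderEmbOfFin_mem hc a) (S.orderEmbOfFin_mem hc b) hlt.ne
    rcases hadj with h | h
    · exact h.2
    · exact (lt_asymm h.1 hlt).elim
  · rintro ⟨ψ, hψ, h⟩
    refine ⟨univ.image ψ, ?_⟩
    rw [SimpleGraph.isNClique_iff]
    refine ⟨?_, ?_⟩
    · intro u hu v hv huv
      rw [mem_coe, mem_image] at hu hv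
      obtain ⟨a, -, rfl⟩ := hu
      obtain ⟨b, -, rfl⟩ := hv
      rcases lt_trichotomy a b with hab | hab | hab
      · exact Or.inl ⟨hψ hab, h a b hab⟩
      · exact (huv (by rw [hab])).elim
      · exact Or.inr ⟨hψ hab, h b a hab⟩
    · rw [card_image_of_injective _ hψ.injective, card_univ, Fintype.card_fin]

/-- The block function is hard for disjunctions of conjunctions of `g ^ 2` wires. -/
theorem hard_clique (k g : ℕ) (hk : 1 ≤ k) : ∃ K, ∀ q ≥ K, ∀ s, K * s ≤ q ^ k → ∀ N,
    Hard (HS : Set (BV k q q) → Prop) s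
      (fun r : Fin N × Fin N → Prop => ∃ S : Finset (Fin N), (outGraph r).IsNClique g S) := by
  obtain ⟨K, hK⟩ := hard k (g * g + 1) hk
  refine ⟨K, fun q hq s hs N gt hg wr hwr xw hxw hpos hneg => ?_⟩
  set O : Set (Fin (g * g + 1) → Set (BV k q q) → Prop) :=
    {o | (∃ ψ : Fin g → Fin N, StrictMono ψ ∧ o = Fin.cons (fun _ => True) fun i z =>
        ((finProdFinEquiv.symm i).1 < (finProdFinEquiv.symm i).2 →
          wr (ψ (finProdFinEquiv.symm i).1, ψ (finProdFinEquiv.symm i).2) z)) ∨
      ∃ i < s, o = Fin.cons (xw i) fun _ _ => True} with hO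
  refine hK q hq s hs gt hg O ?_ ?_ ?_
  · rintro o (⟨ψ, hψ, rfl⟩ | ⟨i, hi, rfl⟩) j
    · refine Fin.cases ?_ (fun j => ?_) j
      · exact Or.inl (Or.inr ⟨True, fun z => Iff.rfl⟩)
      · rw [Fin.cons_succ]
        by_cases hlt : (finProdFinEquiv.symm j).1 < (finProdFinEquiv.symm j).2
        · rcases hwr (ψ (finProdFinEquiv.symm j).1, ψ (finProdFinEquiv.symm j).2) with
            h | ⟨l, hl, h⟩
          · left
            rcases h with ⟨e, he⟩ | ⟨t, ht⟩
            · exact Or.inl ⟨e, fun z => by rw [← he z]; exact ⟨fun h => h hlt, fun h _ => h⟩⟩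
            · exact Or.inr ⟨t, fun z => by rw [← ht z]; exact ⟨fun h => h hlt, fun h _ => h⟩⟩
          · exact Or.inr ⟨l, hl, fun z => by rw [← h z]; exact ⟨fun h => h hlt, fun h _ => h⟩⟩
        · exact Or.inl (Or.inr ⟨True, fun z => ⟨fun _ => trivial, fun _ h => (hlt h).elim⟩⟩)
    · refine Fin.cases ?_ (fun j => ?_) j
      · rw [Fin.cons_zero]
        exact hxw i hi
      · exact Or.inl (Or.inr ⟨True, fun z => Iff.rfl⟩)
  · intro z hz
    rcases hpos z hz with h | ⟨i, hi, h⟩
    · rw [clique_iff] at h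
      obtain ⟨ψ, hψ, h⟩ := h
      refine ⟨_, Or.inl ⟨ψ, hψ, rfl⟩, ?_⟩
      intro j
      refine Fin.cases trivial (fun j => ?_) j
      rw [Fin.cons_succ]
      exact fun hlt => h _ _ hlt
    · refine ⟨_, Or.inr ⟨i, hi, rfl⟩, ?_⟩
      intro j
      exact Fin.cases h (fun j => trivial) j
  · rintro z hz o (⟨ψ, hψ, rfl⟩ | ⟨i, hi, rfl⟩)
    · by_contra hcon
      push Not at hcon
      apply (hneg z hz).1
      rw [clique_iff]
      refine ⟨ψ, hψ, fun a b hab => ?_⟩
      have := hcon (finProdFinEquiv (a, b)).succ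
      rw [Fin.cons_succ, Equiv.symm_apply_apply] at this
      exact this hab
    · exact ⟨0, (hneg z hz).2 i hi⟩

/-- **Main estimate.** Monotone reductions from the dominating set problem with parameter `k` to the
clique problem have at least `n ^ k / K` gates. -/
theorem dom_clique (k g : ℕ) (hk : 1 ≤ k) : ∃ K, ∀ n ≥ K, ∀ N,
    ∀ C : Circuit (Fin n × Fin n) (Fin N × Fin N), C.nots = 0 → Reduces C k g →
      n ^ k < K * C.size := by
  obtain ⟨K₀, hK₀⟩ := hard_clique k g hk
  set B := 2 * (k + 1) with hB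
  set D := (k + 1) * K₀ + 2 * (k * (k + 1)) + B with hD
  set K := D + K₀ * B ^ k + 1 with hK
  refine ⟨K, fun n hn N C hC hred => ?_⟩
  by_contra hcon
  rw [not_lt] at hcon
  -- the block size
  set q := (n - k * (k + 1)) / (k + 1) with hq
  have hqn : (k + 1) * q ≤ n - k * (k + 1) := Nat.mul_div_le _ _
  have hqn' : n - k * (k + 1) < (k + 1) * (q + 1) := Nat.lt_mul_div_succ _ (by omega)
  have hq1 : K₀ ≤ q := by
    rw [hq, Nat.le_div_iff_mul_le (by omega)]
    have : K₀ * (k + 1) = (k + 1) * K₀ := mul_comm _ _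
    omega
  have hq2 : n ≤ B * q := by
    have h1 : (k + 1) * (q + 1) = (k + 1) * q + (k + 1) := by ring
    have h2 : B * q = 2 * ((k + 1) * q) := by rw [hB]; ring
    omega
  have hcard : Fintype.card (UV k q (n - k * (k + 1) - (k + 1) * q)) = Fintype.card (Fin n) := by
    rw [card_UV, Fintype.card_fin]
    have h1 : (k + 1) * q = k * q + q := by ring
    omega
  obtain e := Fintype.equivOfCardEq hcard
  have hsize : K₀ * C.size ≤ q ^ k := by
    have h1 : B ^ k * (K₀ * C.size) ≤ B ^ k * q ^ k := by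
      calc B ^ k * (K₀ * C.size) = (K₀ * B ^ k) * C.size := by ring
        _ ≤ K * C.size := Nat.mul_le_mul_right _ (by omega)
        _ ≤ n ^ k := hcon
        _ ≤ (B * q) ^ k := Nat.pow_le_pow_left hq2 _
        _ = B ^ k * q ^ k := by rw [mul_pow]
    exact Nat.le_of_mul_le_mul_left h1 (Nat.pow_pos (by omega))
  have hq0 : 1 ≤ q := by
    rcases Nat.eq_zero_or_pos q with h | h
    · rw [h] at hq2
      omega
    · exact h
  have h := chain_count (ι := Unit) (T := (HS : Set (BV k q q) → Prop)) (not_HS_empty hq0) C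
    (hK₀ q hq1 C.size hsize N) (embU e) (by
      intro y
      have h1 := hred ((graphU (y ())).comap e.symm)
      rw [hasDomSet_comap, domSet_graphU hk] at h1
      rw [show (∃ i : Unit, HS (y i)) ↔ HS (y ()) from ⟨fun ⟨_, h⟩ => h, fun h => ⟨(), h⟩⟩]
      exact h1.symm)
  rw [hC] at h
  simp at h

end Pool.Agent.T9h75.WH
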