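import Pool.Agent.T9h75.WH.DomEmb

set_option autoImplicit false
set_option linter.unusedSectionVars false

namespace Pool.Agent.T9h75.WH

open Finset Pool.Agent.T9h16
open scoped Classical

/-- The rows and the selectors. -/
abbrev AU (p p' k q : ℕ) : Type := (Fin p × Fin k × Fin q) ⊕ Fin p'

/-- The columns, the group vertices, the selector group, the consistency vertices, padding. -/
abbrev BU (p p' k q d : ℕ) : Type :=
  (Fin p' × Fin q) ⊕ ((Fin k × Fin (k + 2)) ⊕ (Fin (k + 2) ⊕ ((Fin k × Fin p) ⊕ Fin d)))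

section
variable {p p' k q d : ℕ}

/-- Incidences between the two sides. -/
def incA (y : Fin p × Fin p' → Set (BV k q q)) : AU p p' k q → BU p p' k q d → Prop
  | .inl a, .inl b => (a.2.1, a.2.2, b.2) ∈ y (a.1, b.1)
  | .inl a, .inr (.inl b) => a.2.1 = b.1
  | .inl _, .inr (.inr (.inl _)) => False
  | .inl a, .inr (.inr (.inr (.inl b))) =>
      (a.2.1.val = 0 ∧ a.1 = b.2) ∨ (a.2.1 = b.1 ∧ a.1 ≠ b.2)
  | .inl _, .inr (.inr (.inr (.inr _))) => True
  | .inr Q, .inl b => Q ≠ b.1
  | .inr _, .inr (.inl _) => False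
  | .inr _, .inr (.inr (.inl _)) => True
  | .inr _, .inr (.inr (.inr (.inl _))) => False
  | .inr _, .inr (.inr (.inr (.inr _))) => True

/-- The adjacencies of a split graph. -/
def adjS {A B : Type} (inc : A → B → Prop) : A ⊕ B → A ⊕ B → Prop
  | .inl a, .inl b => a ≠ b
  | .inl a, .inr u => inc a u
  | .inr u, .inl a => inc a u
  | .inr _, .inr _ => False

/-- The split graph of an incidence relation. -/
def splitGraph {A B : Type} (inc : A → B → Prop) : SimpleGraph (A ⊕ B) where
  Adj := adjS inc
  symm := ⟨by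
    rintro (a | u) (b | v) h
    · exact Ne.symm h
    · exact h
    · exact h
    · exact h⟩
  loopless := ⟨by
    rintro (a | u) h
    · exact h rfl
    · exact h⟩

theorem domSet_split (hk : 1 ≤ k) (y : Fin p × Fin p' → Set (BV k q q)) :
    HasDomSet (splitGraph (incA (d := d) y)) (k + 1) ↔ ∃ i, HS (y i) := by
  constructor
  · rintro ⟨S, hS, hdom⟩
    -- a row of every group
    have hrow : ∀ x : Fin k, ∃ a : Fin p × Fin q,
        (Sum.inl (Sum.inl (a.1, x, a.2)) : AU p p' k q ⊕ BU p p' k q d) ∈ S := by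
      intro x
      by_contra hno
      push Not at hno
      have hall : ∀ c : Fin (k + 2),
          (Sum.inr (Sum.inr (Sum.inl (x, c))) : AU p p' k q ⊕ BU p p' k q d) ∈ S := by
        intro c
        rcases hdom (Sum.inr (Sum.inr (Sum.inl (x, c)))) with h | ⟨u, hu, h⟩
        · exact h
        · exfalso
          rcases u with (⟨P, x', i⟩ | Q) | u
          · have h' : x' = x := h
            subst h'
            exact hno (P, i) hu
          · exact h
          · exact h
      have hle : Fintype.card (Fin (k + 2)) ≤ S.card := by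
        rw [← card_univ]
        apply card_le_card_of_injOn
          (fun c : Fin (k + 2) =>
            (Sum.inr (Sum.inr (Sum.inl (x, c))) : AU p p' k q ⊕ BU p p' k q d))
        · intro c _
          exact hall c
        · intro c _ c' _ h
          simpa using h
      rw [Fintype.card_fin] at hle
      omega
    -- a selector
    have hsel : ∃ Q : Fin p', (Sum.inl (Sum.inr Q) : AU p p' k q ⊕ BU p p' k q d) ∈ S := by
      by_contra hno
      push Not at hno
      have hall : ∀ c : Fin (k + 2),
          (Sum.inr (Sum.inr (Sum.inr (Sum.inl c))) : AU p p' k q ⊕ BU p p' k q d) ∈ S := by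
        intro c
        rcases hdom (Sum.inr (Sum.inr (Sum.inr (Sum.inl c)))) with h | ⟨u, hu, h⟩
        · exact h
        · exfalso
          rcases u with (⟨P, x', i⟩ | Q) | u
          · exact h
          · exact hno Q hu
          · exact h
      have hle : Fintype.card (Fin (k + 2)) ≤ S.card := by
        rw [← card_univ]
        apply card_le_card_of_injOn
          (fun c : Fin (k + 2) =>
            (Sum.inr (Sum.inr (Sum.inr (Sum.inl c))) : AU p p' k q ⊕ BU p p' k q d))
        · intro c _
          exact hall c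
        · intro c _ c' _ h
          simpa using h
      rw [Fintype.card_fin] at hle
      omega
    choose a ha using hrow
    obtain ⟨Q, hQ⟩ := hsel
    set f : Option (Fin k) → AU p p' k q ⊕ BU p p' k q d := fun o =>
      o.elim (Sum.inl (Sum.inr Q)) fun x => Sum.inl (Sum.inl ((a x).1, x, (a x).2)) with hf
    set R : Finset (AU p p' k q ⊕ BU p p' k q d) := univ.image f with hR
    have hRS : R ⊆ S := by
      intro u hu
      rw [hR, mem_image] at hu
      obtain ⟨o, -, rfl⟩ := hu
      rcases o with _ | x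
      · exact hQ
      · exact ha x
    have hRc : R.card = k + 1 := by
      rw [hR, card_image_of_injective, card_univ, Fintype.card_option, Fintype.card_fin]
      intro o o' h
      rcases o with _ | x <;> rcases o' with _ | x'
      · rfl
      · simp [hf] at h
      · simp [hf] at h
      · simp only [hf, Option.elim, Sum.inl.injEq, Prod.mk.injEq] at h
        rw [h.2.1]
    have hRSeq : R = S := eq_of_subset_of_card_le hRS (by omega)
    have hmem : ∀ u ∈ S, (u = Sum.inl (Sum.inr Q)) ∨
        ∃ x, u = Sum.inl (Sum.inl ((a x).1, x, (a x).2)) := by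
      intro u hu
      rw [← hRSeq, hR, mem_image] at hu
      obtain ⟨o, -, rfl⟩ := hu
      rcases o with _ | x
      · exact Or.inl rfl
      · exact Or.inr ⟨x, rfl⟩
    -- consistency
    have hcons : ∀ x, (a x).1 = (a ⟨0, hk⟩).1 := by
      intro x
      rcases hdom (Sum.inr (Sum.inr (Sum.inr (Sum.inr (Sum.inl (x, (a x).1)))))) with h | ⟨u, hu, h⟩
      · rcases hmem _ h with h | ⟨_, h⟩ <;> exact (Sum.inr_ne_inl h).elim
      · rcases hmem _ hu with rfl | ⟨x', rfl⟩
        · exact h.elim
        · rcases h with ⟨h0, h⟩ | ⟨h0, h⟩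
          · have : x' = ⟨0, hk⟩ := Fin.ext h0
            subst this
            exact h.symm
          · have h0' : x' = x := h0
            subst h0'
            exact (h rfl).elim
    refine ⟨((a ⟨0, hk⟩).1, Q), fun x => (a x).2, fun j => ?_⟩
    rcases hdom (Sum.inr (Sum.inl (Q, j))) with h | ⟨u, hu, h⟩
    · rcases hmem _ h with h | ⟨_, h⟩ <;> exact (Sum.inr_ne_inl h).elim
    · rcases hmem _ hu with rfl | ⟨x, rfl⟩
      · exact (h rfl).elim
      · refine ⟨x, ?_⟩
        have h' : (x, (a x).2, j) ∈ y ((a x).1, Q) := h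
        rwa [hcons x] at h'
  · rintro ⟨⟨P, Q⟩, φ, hφ⟩
    set f : Option (Fin k) → AU p p' k q ⊕ BU p p' k q d := fun o =>
      o.elim (Sum.inl (Sum.inr Q)) fun x => Sum.inl (Sum.inl (P, x, φ x)) with hf
    have hsel : (Sum.inl (Sum.inr Q) : AU p p' k q ⊕ BU p p' k q d) ∈ univ.image f :=
      mem_image.2 ⟨none, mem_univ _, rfl⟩
    have hrow : ∀ x, (Sum.inl (Sum.inl (P, x, φ x)) : AU p p' k q ⊕ BU p p' k q d) ∈ univ.image f :=
      fun x => mem_image.2 ⟨some x, mem_univ _, rfl⟩
    refine ⟨univ.image f, ?_, ?_⟩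
    · refine card_image_le.trans ?_
      rw [card_univ, Fintype.card_option, Fintype.card_fin]
    · rintro (a | ⟨Q', j⟩ | ⟨x, c⟩ | c | ⟨x, P'⟩ | c)
      · by_cases ha : a = Sum.inr Q
        · left
          rw [ha]
          exact hsel
        · exact Or.inr ⟨_, hsel, Ne.symm ha⟩
      · right
        by_cases hQ : Q = Q'
        · subst hQ
          obtain ⟨x, hx⟩ := hφ j
          exact ⟨_, hrow x, hx⟩
        · exact ⟨_, hsel, hQ⟩
      · exact Or.inr ⟨_, hrow x, rfl⟩
      · exact Or.inr ⟨_, hsel, trivial⟩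
      · right
        by_cases hP : P = P'
        · exact ⟨_, hrow ⟨0, hk⟩, Or.inl ⟨rfl, hP⟩⟩
        · exact ⟨_, hrow x, Or.inr ⟨rfl, hP⟩⟩
      · exact Or.inr ⟨_, hsel, trivial⟩

theorem split_mono {y y' : Fin p × Fin p' → Set (BV k q q)} (h : ∀ i, y i ⊆ y' i)
    (a b : AU p p' k q ⊕ BU p p' k q d) (hab : (splitGraph (incA y)).Adj a b) :
    (splitGraph (incA y')).Adj a b := by
  rcases a with (a | Q) | a | a | a | a | a <;> rcases b with (b | Q') | b | b | b | b | b
  all_goals first
    | exact hab
    | exact h _ hab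

theorem split_leaf (a b : AU p p' k q ⊕ BU p p' k q d) :
    (∃ t : Prop, ∀ y, (splitGraph (incA y)).Adj a b ↔ t) ∨
    ∃ i e, ∀ y : Fin p × Fin p' → Set (BV k q q), (splitGraph (incA y)).Adj a b ↔ e ∈ y i := by
  rcases a with (a | Q) | a | a | a | a | a <;> rcases b with (b | Q') | b | b | b | b | b
  all_goals first
    | exact Or.inl ⟨_, fun z => Iff.rfl⟩
    | exact Or.inr ⟨_, _, fun z => Iff.rfl⟩

/-- Writing `p * p'` blocks into the dominating set problem. -/
noncomputable def embS {n : ℕ} (e : (AU p p' k q ⊕ BU p p' k q d) ≃ Fin n) :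
    Emb (Fin n × Fin n) (Fin p × Fin p') (BV k q q) where
  X := fun y => edgeInput ((splitGraph (incA y)).comap e.symm)
  mono := by
    intro y y' h a ha
    exact split_mono h _ _ ha
  leaf := by
    intro a
    rcases split_leaf (e.symm a.1) (e.symm a.2) with ⟨t, ht⟩ | ⟨i, b, hb⟩
    · exact Or.inl ⟨t, fun y => ht _⟩
    · exact Or.inr ⟨i, b, fun y => hb _⟩

theorem card_split (p p' k q d : ℕ) : Fintype.card (AU p p' k q ⊕ BU p p' k q d) =
    (p * (k * q) + p') + (p' * q + (k * (k + 2) + ((k + 2) + (k * p + d)))) := by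
  simp only [Fintype.card_sum, Fintype.card_prod, Fintype.card_fin]

end

/-- The trade-off between the number of gates and the number of NOT gates, for a given block
size. -/
theorem dom_clique_block (k g : ℕ) (hk : 1 ≤ k) : ∃ K, ∀ q ≥ K, ∀ n ≥ K * q, ∀ N,
    ∀ C : Circuit (Fin n × Fin n) (Fin N × Fin N), K * C.size ≤ q ^ k → Reduces C (k + 1) g →
      n ^ 2 < (K * q) ^ 2 * 2 ^ C.nots := by
  obtain ⟨K₀, hK₀⟩ := hard_clique k g hk
  set B := 8 * k with hB
  set K := K₀ + B + 2 * ((k + 1) * (k + 2)) + 1 with hK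
  refine ⟨K, fun q hq n hn N C hC hred => ?_⟩
  have hq1 : 1 ≤ q := by omega
  set p := (n - (k + 1) * (k + 2)) / (4 * k * q) with hp
  have h4 : 0 < 4 * k * q := by positivity
  have hp1 : 4 * k * q * p ≤ n - (k + 1) * (k + 2) := Nat.mul_div_le _ _
  have hp2 : n - (k + 1) * (k + 2) < 4 * k * q * (p + 1) := Nat.lt_mul_div_succ _ h4
  have hn1 : K ≤ n := by nlinarith
  have hn3 : B * q + 2 * ((k + 1) * (k + 2)) ≤ n := by
    have : (B + 2 * ((k + 1) * (k + 2))) * q ≤ K * q := Nat.mul_le_mul_right _ (by omega)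
    nlinarith [Nat.zero_le (2 * ((k + 1) * (k + 2)))]
  have hpB : n ≤ B * q * p := by
    have h1 : B * q * p = 2 * (4 * k * q * p) := by rw [hB]; ring
    have h2 : 4 * k * q * (p + 1) = 4 * k * q * p + 4 * k * q := by ring
    have h3 : B * q = 2 * (4 * k * q) := by rw [hB]; ring
    omega
  have hcardle : (p * (k * q) + p) + (p * q + (k * (k + 2) + ((k + 2) + k * p))) ≤ n := by
    have h1 : p * (k * q) + p + p * q + k * p ≤ 4 * k * q * p := by
      have e1 : p ≤ k * q * p := Nat.le_mul_of_pos_left _ (by positivity)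
      have e2 : p * q ≤ k * q * p := by
        calc p * q = q * p := mul_comm _ _
          _ ≤ k * (q * p) := Nat.le_mul_of_pos_left _ hk
          _ = k * q * p := by ring
      have e3 : k * p ≤ k * q * p := by
        calc k * p ≤ q * (k * p) := Nat.le_mul_of_pos_left _ hq1
          _ = k * q * p := by ring
      have e4 : p * (k * q) = k * q * p := by ring
      have e5 : 4 * k * q * p = 4 * (k * q * p) := by ring
      omega
    have h2 : k * (k + 2) + (k + 2) = (k + 1) * (k + 2) := by ring
    omega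
  obtain ⟨d, hd⟩ := Nat.exists_eq_add_of_le hcardle
  have hcard : Fintype.card (AU p p k q ⊕ BU p p k q d) = Fintype.card (Fin n) := by
    rw [card_split, Fintype.card_fin, hd]
    ring
  obtain e := Fintype.equivOfCardEq hcard
  have h := chain_count (ι := Fin p × Fin p) (T := (HS : Set (BV k q q) → Prop))
    (not_HS_empty hq1) C
    (hK₀ q (by omega) C.size (le_trans (Nat.mul_le_mul_right _ (by omega)) hC) N) (embS e) (by
      intro y
      have h1 := hred ((splitGraph (incA y)).comap e.symm)
      rw [hasDomSet_comap, domSet_split hk] at h1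
      exact h1.symm)
  rw [Fintype.card_prod, Fintype.card_fin] at h
  calc n ^ 2 ≤ (B * q * p) ^ 2 := Nat.pow_le_pow_left hpB _
    _ = (B * q) ^ 2 * (p * p) := by ring
    _ < (B * q) ^ 2 * 2 ^ C.nots := by
        apply Nat.mul_lt_mul_of_pos_left _ (by positivity)
        omega
    _ ≤ (K * q) ^ 2 * 2 ^ C.nots := by
        apply Nat.mul_le_mul_right
        apply Nat.pow_le_pow_left
        exact Nat.mul_le_mul_right _ (by omega)

end Pool.Agent.T9h75.WH
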