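import Pool.Agent.T9h75.WH.DomNeg

set_option autoImplicit false
set_option linter.unusedSectionVars false

namespace Pool.Agent.T9h75.WH

open Finset Pool.Agent.T9h16

/-- A number `q` of size about the `k`-th root of `K * s`. -/
theorem exists_root (k K s : ℕ) (hk : 1 ≤ k) (hs : 1 ≤ s) :
    ∃ q ≥ K, K * s ≤ q ^ k ∧ q ^ k ≤ (K ^ k + 2 ^ k * K + 1) * s := by
  have hex : ∃ r, K * s ≤ r ^ k := ⟨K * s, Nat.le_self_pow (by omega) _⟩
  obtain ⟨r, hr⟩ : ∃ r, r = Nat.find hex := ⟨_, rfl⟩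
  have hr1 : K * s ≤ r ^ k := by rw [hr]; exact Nat.find_spec hex
  have hr2 : r ^ k ≤ (2 ^ k * K + 1) * s := by
    rcases Nat.lt_or_ge r 2 with h | h
    · have h1 : r ^ k ≤ 1 ^ k := Nat.pow_le_pow_left (by omega) _
      rw [one_pow] at h1
      have h2 : 1 * 1 ≤ (2 ^ k * K + 1) * s := Nat.mul_le_mul (by omega) hs
      omega
    · have h1 : ¬ K * s ≤ (r - 1) ^ k := by
        rw [hr]
        exact Nat.find_min hex (by omega)
      rw [not_le] at h1
      calc r ^ k ≤ (2 * (r - 1)) ^ k := Nat.pow_le_pow_left (by omega) _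
        _ = 2 ^ k * (r - 1) ^ k := by rw [mul_pow]
        _ ≤ 2 ^ k * (K * s) := Nat.mul_le_mul_left _ h1.le
        _ ≤ (2 ^ k * K + 1) * s := by nlinarith
  refine ⟨max K r, le_max_left _ _, hr1.trans (Nat.pow_le_pow_left (le_max_right _ _) _), ?_⟩
  have h1 : (max K r) ^ k ≤ K ^ k + r ^ k := by
    rcases max_cases K r with ⟨h, -⟩ | ⟨h, -⟩
    · rw [h]; exact Nat.le_add_right _ _
    · rw [h]; exact Nat.le_add_left _ _
  have h2 : K ^ k ≤ K ^ k * s := Nat.le_mul_of_pos_right _ hs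
  calc (max K r) ^ k ≤ K ^ k * s + (2 ^ k * K + 1) * s := by omega
    _ = _ := by ring

theorem nots_le_size {α β : Type} (C : Circuit α β) : C.nots ≤ C.size := List.countP_le_length

/-- The trade-off between the number of gates and the number of NOT gates. -/
theorem dom_clique_tradeoff (k g : ℕ) (hk : 1 ≤ k) : ∃ K, ∀ n ≥ K, ∀ N,
    ∀ C : Circuit (Fin n × Fin n) (Fin N × Fin N), Reduces C (k + 1) g →
      n ^ (2 * k) < K * C.size ^ 2 * 2 ^ (k * C.nots) := by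
  obtain ⟨K₁, hK₁⟩ := dom_clique_block k g hk
  set K₂ := K₁ ^ k + 2 ^ k * K₁ + 1 with hK₂
  refine ⟨K₁ ^ (2 * k) * K₂ ^ 2 + K₁ * K₁ + 1, fun n hn N C hred => ?_⟩
  set K := K₁ ^ (2 * k) * K₂ ^ 2 + K₁ * K₁ + 1 with hK
  rcases Nat.eq_zero_or_pos C.size with h0 | h0
  · exfalso
    have h1 : C.nots = 0 := by have := nots_le_size C; omega
    have h2 := hK₁ K₁ le_rfl n (by omega) N C (by rw [h0]; simp) hred
    rw [h1, pow_zero, mul_one] at h2
    have h3 : K₁ * K₁ ≤ n := by omega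
    have h4 := Nat.pow_le_pow_left h3 2
    omega
  · obtain ⟨q, hq, hq1, hq2⟩ := exists_root k K₁ C.size hk h0
    rw [← hK₂] at hq2
    have hqk : (q ^ k) ^ 2 ≤ (K₂ * C.size) ^ 2 := Nat.pow_le_pow_left hq2 2
    have hpos : 0 < 2 ^ (k * C.nots) := by positivity
    have hsz : 0 < C.size ^ 2 := by positivity
    have hfin : K₁ ^ (2 * k) * (q ^ k) ^ 2 < K * C.size ^ 2 := by
      calc K₁ ^ (2 * k) * (q ^ k) ^ 2 ≤ K₁ ^ (2 * k) * (K₂ * C.size) ^ 2 :=
            Nat.mul_le_mul_left _ hqk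
        _ = (K₁ ^ (2 * k) * K₂ ^ 2) * C.size ^ 2 := by ring
        _ < K * C.size ^ 2 := Nat.mul_lt_mul_of_pos_right (by omega) hsz
    rcases Nat.lt_or_ge n (K₁ * q) with h | h
    · calc n ^ (2 * k) ≤ (K₁ * q) ^ (2 * k) := Nat.pow_le_pow_left h.le _
        _ = K₁ ^ (2 * k) * (q ^ k) ^ 2 := by rw [mul_pow, ← pow_mul, mul_comm k 2]
        _ < K * C.size ^ 2 := hfin
        _ ≤ K * C.size ^ 2 * 2 ^ (k * C.nots) := Nat.le_mul_of_pos_right _ hpos
    · have h2 := hK₁ q hq n h N C hq1 hred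
      calc n ^ (2 * k) = (n ^ 2) ^ k := by rw [pow_mul]
        _ ≤ ((K₁ * q) ^ 2 * 2 ^ C.nots) ^ k := Nat.pow_le_pow_left h2.le _
        _ = K₁ ^ (2 * k) * (q ^ k) ^ 2 * 2 ^ (k * C.nots) := by
            rw [mul_pow, ← pow_mul, ← pow_mul, mul_pow, ← pow_mul, mul_comm C.nots k, mul_comm k 2]
        _ < K * C.size ^ 2 * 2 ^ (k * C.nots) := Nat.mul_lt_mul_of_pos_right hfin hpos

end Pool.Agent.T9h75.WH
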