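import Pool.Agent.T9h75.WH.Appr
import Pool.Agent.T9h16.Hard

set_option autoImplicit false
set_option linter.unusedSectionVars false

namespace Pool.Agent.T9h75.WH

open Finset Pool.Agent.T9h16
open scoped Classical

section
variable {k w m : ℕ}

/-- The variables of column `j` in the rows chosen by `φ`. -/
noncomputable def colV (φ : Fin k → Fin w) (j : Fin m) : Finset (BV k w m) :=
  univ.image fun x : Fin k => (x, φ x, j)

theorem card_colV (φ : Fin k → Fin w) (j : Fin m) : (colV φ j).card = k := by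
  rw [colV, card_image_of_injective, card_univ, Fintype.card_fin]
  intro x y h
  exact (Prod.ext_iff.1 h).1

theorem card_HS_fix {A : ℕ} (hA : 1 ≤ A) (φ : Fin k → Fin w) :
    (univ.filter fun χ : BV k w m → Fin A => ∀ j : Fin m, ∃ x, (x, φ x, j) ∈ negT χ).card *
      (A ^ k) ^ m ≤ (A ^ k - 1) ^ m * Fintype.card (BV k w m → Fin A) := by
  have h := avoid_many (D := BV k w m) (V := Fin A) univ
    (fun i => if hi : i < m then colV φ ⟨i, hi⟩ else ∅) (fun _ _ => ⟨0, hA⟩) (A ^ k) (by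
      intro i
      rw [Fintype.card_fin]
      by_cases hi : i < m
      · simp only [hi, dif_pos]
        rw [card_colV]
      · simp only [hi, dif_neg, not_false_iff, card_empty, pow_zero]
        exact Nat.pow_pos hA)
    (fun i u _ => mem_univ _) m (by
      intro i hi i' hi'
      have hi'm : i' < m := by omega
      simp only [hi, hi'm, dif_pos]
      rw [disjoint_left]
      intro e he he'
      rw [colV, mem_image] at he he'
      obtain ⟨x, -, rfl⟩ := he
      obtain ⟨x', -, hx'⟩ := he'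
      simp only [Prod.mk.injEq, Fin.mk.injEq] at hx'
      omega)
  refine le_trans (Nat.mul_le_mul_right _ (card_le_card ?_)) h
  · intro χ hχ
    simp only [mem_filter, mem_univ, true_and] at hχ ⊢
    intro i hi
    obtain ⟨x, hx⟩ := hχ ⟨i, hi⟩
    refine ⟨(x, φ x, ⟨i, hi⟩), ?_, ?_⟩
    · simp only [hi, dif_pos]
      exact mem_image_of_mem _ (mem_univ x)
    · intro hcon
      apply hx
      rw [hcon]

theorem card_HS_le {A : ℕ} (hA : 1 ≤ A) :
    (univ.filter fun χ : BV k w m → Fin A => HS (negT χ)).card * (A ^ k) ^ m ≤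
      w ^ k * ((A ^ k - 1) ^ m * Fintype.card (BV k w m → Fin A)) := by
  have hsub : (univ.filter fun χ : BV k w m → Fin A => HS (negT χ)) ⊆
      (univ : Finset (Fin k → Fin w)).biUnion fun φ =>
        univ.filter fun χ : BV k w m → Fin A => ∀ j : Fin m, ∃ x, (x, φ x, j) ∈ negT χ := by
    intro χ hχ
    obtain ⟨φ, hφ⟩ := (mem_filter.1 hχ).2
    exact mem_biUnion.2 ⟨φ, mem_univ _, mem_filter.2 ⟨mem_univ _, hφ⟩⟩
  calc (univ.filter fun χ : BV k w m → Fin A => HS (negT χ)).card * (A ^ k) ^ m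
      ≤ (∑ φ : Fin k → Fin w, (univ.filter fun χ : BV k w m → Fin A =>
          ∀ j : Fin m, ∃ x, (x, φ x, j) ∈ negT χ).card) * (A ^ k) ^ m :=
        Nat.mul_le_mul_right _ ((card_le_card hsub).trans card_biUnion_le)
    _ = ∑ φ : Fin k → Fin w, (univ.filter fun χ : BV k w m → Fin A =>
          ∀ j : Fin m, ∃ x, (x, φ x, j) ∈ negT χ).card * (A ^ k) ^ m := by rw [sum_mul]
    _ ≤ ∑ _φ : Fin k → Fin w, (A ^ k - 1) ^ m * Fintype.card (BV k w m → Fin A) :=
        sum_le_sum fun φ _ => card_HS_fix hA φ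
    _ = _ := by
        rw [sum_const, smul_eq_mul, card_univ, Fintype.card_fun, Fintype.card_fin,
          Fintype.card_fin]

/-- Few random sets of variables satisfy the block function. -/
theorem card_HS_four {A L : ℕ} (hA : 1 ≤ A) (hm : A ^ k * L ≤ m) (hL : w ^ k * 4 ≤ 2 ^ L) :
    (univ.filter fun χ : BV k w m → Fin A => HS (negT χ)).card * 4 ≤
      Fintype.card (BV k w m → Fin A) := by
  have h1 := card_HS_le (k := k) (w := w) (m := m) hA
  have ha : 1 ≤ A ^ k := Nat.pow_pos hA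
  generalize A ^ k = a at *
  have h2 : (a - 1) ^ m * 2 ^ L ≤ a ^ m := by
    obtain ⟨d, rfl⟩ := Nat.exists_eq_add_of_le hm
    rw [pow_add, pow_add, pow_mul, pow_mul]
    calc ((a - 1) ^ a) ^ L * (a - 1) ^ d * 2 ^ L = ((a - 1) ^ a * 2) ^ L * (a - 1) ^ d := by
          rw [mul_pow]; ring
      _ ≤ (a ^ a) ^ L * a ^ d := Nat.mul_le_mul (Nat.pow_le_pow_left (two_mul_pow_le a ha) _)
          (Nat.pow_le_pow_left (Nat.sub_le _ _) _)
  have h3 : (a - 1) ^ m * (w ^ k * 4) ≤ a ^ m := (Nat.mul_le_mul_left _ hL).trans h2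
  have ham : 0 < a ^ m := Nat.pow_pos ha
  generalize Fintype.card (BV k w m → Fin A) = N at *
  generalize (univ.filter fun χ : BV k w m → Fin A => HS (negT χ)).card = T at *
  refine Nat.le_of_mul_le_mul_right ?_ ham
  calc T * 4 * a ^ m = (T * a ^ m) * 4 := by ring
    _ ≤ (w ^ k * ((a - 1) ^ m * N)) * 4 := Nat.mul_le_mul_right _ h1
    _ = ((a - 1) ^ m * (w ^ k * 4)) * N := by ring
    _ ≤ a ^ m * N := Nat.mul_le_mul_right _ h3
    _ = N * a ^ m := by ring

theorem hard_gen (hk : 1 ≤ k) (hw : 1 ≤ w) {A c a M s h : ℕ} (hA : 1 ≤ A) (hc : 1 ≤ c) (hM : 1 ≤ M)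
    (ha : a = k ^ c)
    (h1 : (univ.filter fun χ : BV k w m → Fin A => HS (negT χ)).card * 4 ≤
      Fintype.card (BV k w m → Fin A))
    (h2 : 4 * (h * (M * c ^ 2)) ≤ A) (h3 : 4 * (s * (M * c ^ 2) ^ (c + 1)) ≤ A ^ (c + 1))
    (h4 : 2 * (s * c ^ k) < w ^ k) (h5 : 2 * (s * k) * (a - 1) ^ M ≤ a ^ M)
    (gt : ℕ → Set (BV k w m) → Prop) (hg : IsSLP gt s)
    (O : Set (Fin h → Set (BV k w m) → Prop)) (hO : ∀ o ∈ O, ∀ i, Avail gt s (o i))
    (hpos : ∀ z, HS z → ∃ o ∈ O, ∀ i, o i z) (hneg : ∀ z, ¬ HS z → ∀ o ∈ O, ∃ i, ¬ o i z) :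
    False := by
  have hℓ : 1 ≤ M * c ^ 2 := Nat.mul_pos hM (Nat.pow_pos hc)
  obtain ⟨PE, NE, hPE, hNE, happ⟩ := appr_slp (A := A) hk hw hA hc hM ha.ge gt s hg
  have ha1 : 1 ≤ a := by rw [ha]; exact Nat.pow_pos hk
  have haM : 0 < a ^ M := Nat.pow_pos ha1
  have hNX0 : 0 < Fintype.card (BV k w m → Fin A) := by
    rw [Fintype.card_fun, Fintype.card_fin]
    exact Nat.pow_pos hA
  have hNP0 : 0 < Fintype.card (PT k w m) := by
    rw [Fintype.card_prod, Fintype.card_fun, Fintype.card_fun, Fintype.card_fin, Fintype.card_fin,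
      Fintype.card_fin]
    exact Nat.mul_pos (Nat.pow_pos hw) (Nat.pow_pos hk)
  -- a positive test outside of the error set
  have hPElt : PE.card < Fintype.card (PT k w m) := by
    generalize Fintype.card (PT k w m) = NP at *
    generalize PE.card = P at *
    by_contra hcon
    rw [not_lt] at hcon
    have e1 : NP * (w ^ k * a ^ M) ≤ s * ((c ^ k * a ^ M + k * w ^ k * (a - 1) ^ M) * NP) :=
      (Nat.mul_le_mul_right _ hcon).trans hPE
    have e2 : 2 * (s * (c ^ k * a ^ M + k * w ^ k * (a - 1) ^ M)) < 2 * (w ^ k * a ^ M) := by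
      calc 2 * (s * (c ^ k * a ^ M + k * w ^ k * (a - 1) ^ M))
          = (2 * (s * c ^ k)) * a ^ M + w ^ k * (2 * (s * k) * (a - 1) ^ M) := by ring
        _ < w ^ k * a ^ M + w ^ k * a ^ M := by
            apply Nat.add_lt_add_of_lt_of_le
            · exact Nat.mul_lt_mul_of_pos_right h4 haM
            · exact Nat.mul_le_mul_left _ h5
        _ = _ := by ring
    have e3 : s * (c ^ k * a ^ M + k * w ^ k * (a - 1) ^ M) < w ^ k * a ^ M := by omega
    have e4 := Nat.mul_lt_mul_of_pos_right e3 hNP0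
    have e5 : s * ((c ^ k * a ^ M + k * w ^ k * (a - 1) ^ M) * NP) =
      s * (c ^ k * a ^ M + k * w ^ k * (a - 1) ^ M) * NP := by ring
    rw [e5] at e1
    have e6 : NP * (w ^ k * a ^ M) = w ^ k * a ^ M * NP := by ring
    omega
  obtain ⟨t, ht⟩ : ∃ t, t ∉ PE := by
    by_contra hcon
    push Not at hcon
    have : PE = univ := by
      ext t; simp [hcon t]
    rw [this, card_univ] at hPElt
    exact lt_irrefl _ hPElt
  obtain ⟨o, hoO, hot⟩ := hpos _ (HS_pos t)
  have hoapp : ∀ i, Appr A c (M * c ^ 2) PE NE (o i) := by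
    intro i
    rcases hO o hoO i with ho | ⟨j, hj, ho⟩
    · exact (appr_leaf hℓ hc ho).mono (by simp) (by simp)
    · exact (happ j hj).congr ho
  choose 𝒲 𝒞 a1 a2 a3 a4 a5 using hoapp
  have hW : ∀ i, ∃ W ∈ 𝒲 i, ∀ e ∈ W, e ∈ pos t := fun i => a4 i t ht (hot i)
  choose W hW hWt using hW
  obtain ⟨EW, hEW⟩ : ∃ EW, EW = univ.biUnion W := ⟨_, rfl⟩
  have hEWc : EW.card ≤ h * (M * c ^ 2) := by
    rw [hEW]
    refine card_biUnion_le.trans ?_
    calc ∑ i : Fin h, (W i).card ≤ ∑ _i : Fin h, M * c ^ 2 := sum_le_sum fun i _ => a1 i _ (hW i)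
      _ = h * (M * c ^ 2) := by rw [sum_const, card_univ, Fintype.card_fin, smul_eq_mul]
  obtain ⟨B₁, hB₁⟩ : ∃ B₁, B₁ = univ.filter fun χ : BV k w m → Fin A => HS (negT χ) := ⟨_, rfl⟩
  obtain ⟨B₂, hB₂⟩ : ∃ B₂, B₂ = univ.filter fun χ : BV k w m → Fin A =>
    ∃ e ∈ EW, (χ e).val = 0 := ⟨_, rfl⟩
  have hb1 : B₁.card * 4 ≤ Fintype.card (BV k w m → Fin A) := by rw [hB₁]; exact h1
  have hb2 : B₂.card * 4 ≤ Fintype.card (BV k w m → Fin A) := by
    have hsub : B₂ ⊆ EW.biUnion fun e => univ.filter fun χ : BV k w m → Fin A =>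
        ∀ e' ∈ ({e} : Finset (BV k w m)), (χ e').val = 0 := by
      intro χ hχ
      rw [hB₂, mem_filter] at hχ
      obtain ⟨e, he, hχe⟩ := hχ.2
      rw [mem_biUnion]
      refine ⟨e, he, mem_filter.2 ⟨mem_univ _, ?_⟩⟩
      intro e' he'
      rw [mem_singleton] at he'
      rw [he']
      exact hχe
    have h6 : B₂.card * A ≤ h * (M * c ^ 2) * Fintype.card (BV k w m → Fin A) := by
      calc B₂.card * A ≤ (∑ e ∈ EW, (univ.filter fun χ : BV k w m → Fin A =>
            ∀ e' ∈ ({e} : Finset (BV k w m)), (χ e').val = 0).card) * A :=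
            Nat.mul_le_mul_right _ ((card_le_card hsub).trans card_biUnion_le)
        _ = ∑ e ∈ EW, (univ.filter fun χ : BV k w m → Fin A =>
            ∀ e' ∈ ({e} : Finset (BV k w m)), (χ e').val = 0).card * A := by rw [sum_mul]
        _ ≤ ∑ _e ∈ EW, Fintype.card (BV k w m → Fin A) := by
            apply sum_le_sum
            intro e _
            have := card_zero A hA ({e} : Finset (BV k w m))
            rw [card_singleton, pow_one] at this
            convert this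
        _ = EW.card * Fintype.card (BV k w m → Fin A) := by rw [sum_const, smul_eq_mul]
        _ ≤ _ := Nat.mul_le_mul_right _ hEWc
    generalize B₂.card = b2 at *
    generalize Fintype.card (BV k w m → Fin A) = NX at *
    generalize h * (M * c ^ 2) = hℓ' at *
    refine Nat.le_of_mul_le_mul_right ?_ hA
    calc b2 * 4 * A = (b2 * A) * 4 := by ring
      _ ≤ (hℓ' * NX) * 4 := Nat.mul_le_mul_right _ h6
      _ = NX * (4 * hℓ') := by ring
      _ ≤ NX * A := Nat.mul_le_mul_left _ h2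
  have hb3 : NE.card * 4 ≤ Fintype.card (BV k w m → Fin A) := by
    generalize NE.card = b3 at *
    generalize Fintype.card (BV k w m → Fin A) = NX at *
    refine Nat.le_of_mul_le_mul_right ?_ (Nat.pow_pos (n := c + 1) hA)
    calc b3 * 4 * A ^ (c + 1) = (b3 * A ^ (c + 1)) * 4 := by ring
      _ ≤ (s * ((M * c ^ 2) ^ (c + 1) * NX)) * 4 := Nat.mul_le_mul_right _ hNE
      _ = NX * (4 * (s * (M * c ^ 2) ^ (c + 1))) := by ring
      _ ≤ NX * A ^ (c + 1) := Nat.mul_le_mul_left _ h3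
  obtain ⟨χ, hχ⟩ : ∃ χ, χ ∉ B₁ ∪ (B₂ ∪ NE) := by
    by_contra hcon
    push Not at hcon
    have h6 : B₁ ∪ (B₂ ∪ NE) = univ := by
      ext χ; simp only [mem_univ, iff_true]; exact hcon χ
    have h7 : Fintype.card (BV k w m → Fin A) ≤ B₁.card + (B₂.card + NE.card) := by
      rw [← card_univ, ← h6]
      exact (card_union_le _ _).trans (Nat.add_le_add_left (card_union_le _ _) _)
    omega
  rw [notMem_union, notMem_union] at hχ
  obtain ⟨hχ1, hχ2, hχ3⟩ := hχ
  have hT : ¬ HS (negT χ) := by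
    intro hT
    exact hχ1 (by rw [hB₁, mem_filter]; exact ⟨mem_univ _, hT⟩)
  obtain ⟨i, hi⟩ := hneg _ hT o hoO
  obtain ⟨F, hF, hFχ⟩ := a5 i χ hχ3 hi
  obtain ⟨e, he, heW⟩ := a3 i _ (hW i) F hF
  apply hχ2
  rw [hB₂, mem_filter]
  refine ⟨mem_univ _, e, ?_, hFχ e he⟩
  rw [hEW, mem_biUnion]
  exact ⟨i, mem_univ _, heW⟩

end

end Pool.Agent.T9h75.WH
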