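import Mathlib

/-!
# Boolean circuits with AND, OR and NOT gates

A circuit with input variables of type `α` and outputs of type `β`.  It is a list of gates in the
order in which they are evaluated, together with one output wire for every output.
-/

set_option autoImplicit false

namespace Pool.Agent.T9h75.WH

/-- A wire: an input variable, a constant, or the output of the gate with number `k`. -/
inductive Wire (α : Type) : Type
  | var (a : α) : Wire α
  | const (b : Bool) : Wire α
  | gate (k : ℕ) : Wire α

/-- A gate: AND or OR of two wires, or NOT of a wire. -/
inductive Gate (α : Type) : Type
  | and (u v : Wire α) : Gate α
  | or (u v : Wire α) : Gate α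
  | not (u : Wire α) : Gate α

/-- A circuit: its gates in the order of evaluation, and its output wires. -/
structure Circuit (α β : Type) : Type where
  gates : List (Gate α)
  out : β → Wire α

/-- The value of a wire on the input `x`, given the list `vs` of the values of the gates evaluated
so far (a gate that has not been evaluated yet counts as false). -/
def Wire.value {α : Type} (x : α → Prop) (vs : List Prop) : Wire α → Prop
  | .var a => x a
  | .const b => b = true
  | .gate k => vs.getD k False

/-- The value of a gate on the input `x`, given the list `vs` of the values of the earlier gates. -/
def Gate.value {α : Type} (x : α → Prop) (vs : List Prop) : Gate α → Prop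
  | .and u v => u.value x vs ∧ v.value x vs
  | .or u v => u.value x vs ∨ v.value x vs
  | .not u => ¬ u.value x vs

/-- Evaluate the gates of a list one after the other, appending their values to `vs`. -/
def run {α : Type} (x : α → Prop) : List (Gate α) → List Prop → List Prop
  | [], vs => vs
  | g :: gs, vs => run x gs (vs ++ [g.value x vs])

/-- The outputs of a circuit on the input `x`. -/
def Circuit.eval {α β : Type} (C : Circuit α β) (x : α → Prop) (b : β) : Prop :=
  (C.out b).value x (run x C.gates [])

/-- The number of gates of a circuit. -/
def Circuit.size {α β : Type} (C : Circuit α β) : ℕ := C.gates.length

/-- The gate is a NOT gate. -/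
def Gate.isNot {α : Type} : Gate α → Bool
  | .and _ _ => false
  | .or _ _ => false
  | .not _ => true

/-- The number of NOT gates of a circuit. -/
def Circuit.nots {α β : Type} (C : Circuit α β) : ℕ := C.gates.countP Gate.isNot

end Pool.Agent.T9h75.WH
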